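import Mathlib
import Pool.Agent.H581.KS.Lex
import Pool.Agent.H581.KS.Pt
import Pool.Agent.H581.KS.Half2

set_option autoImplicit false

/-!
# Interval representations with two lengths for the posets of the upper bound
-/

open Finset

namespace Pool.Agent.W6h19.KS

open Pool.Agent.H931R3.Bal Pool.Agent.H581.KS Pool.Agent.H581.KS.HG

/-- unit interval orders -/
def R1 (P : Type) [PartialOrder P] : Prop :=
  ∃ l : P → ℝ, ∀ x y : P, x < y ↔ l x + 1 < l y

/-- interval orders with intervals of length one and half-lines -/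
def R2 (P : Type) [PartialOrder P] : Prop :=
  ∃ (l : P → ℝ) (T : P → Prop), ∀ x y : P, x < y ↔ (¬ T x ∧ l x + 1 < l y)

theorem R1.r2 {P : Type} [PartialOrder P] (h : R1 P) : R2 P := by
  obtain ⟨l, hl⟩ := h
  exact ⟨l, fun _ => False, fun x y => by simpa using hl x y⟩

theorem bounds {P : Type} [Fintype P] (l : P → ℝ) : ∃ B C : ℝ, (∀ a, B ≤ l a) ∧ ∀ a, l a ≤ C := by
  obtain ⟨B, hB⟩ := (Set.finite_range l).bddBelow
  obtain ⟨C, hC⟩ := (Set.finite_range l).bddAbove
  exact ⟨B, C, fun a => hB ⟨a, rfl⟩, fun a => hC ⟨a, rfl⟩⟩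

theorem R2.lex {P Q : Type} [Fintype P] [PartialOrder P] [Fintype Q] [PartialOrder Q]
    (hQ : R1 Q) (hP : R2 P) : R2 (Q ⊕ₗ P) := by
  obtain ⟨l, hl⟩ := hQ
  obtain ⟨l', T, hl'⟩ := hP
  obtain ⟨-, C, -, hC⟩ := bounds l
  obtain ⟨B, -, hB, -⟩ := bounds l'
  refine ⟨fun x => Sum.elim l (fun p => l' p + (C - B + 2)) (ofLex x),
    fun x => Sum.elim (fun _ => False) T (ofLex x), ?_⟩
  intro x y
  rcases hx' : ofLex x with a | a
  · have hx : x = toLex (Sum.inl a) := by rw [← hx']; rfl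
    rcases hy' : ofLex y with b | b
    · have hy : y = toLex (Sum.inl b) := by rw [← hy']; rfl
      subst hx hy
      rw [Sum.Lex.inl_lt_inl_iff, hl]
      simp
    · have hy : y = toLex (Sum.inr b) := by rw [← hy']; rfl
      subst hx hy
      have h1 : (toLex (Sum.inl a) : Q ⊕ₗ P) < toLex (Sum.inr b) := Sum.Lex.inl_lt_inr a b
      simp only [h1, true_iff, ofLex_toLex, Sum.elim_inl, Sum.elim_inr, not_false_eq_true, true_and]
      linarith [hC a, hB b]
  · have hx : x = toLex (Sum.inr a) := by rw [← hx']; rfl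
    rcases hy' : ofLex y with b | b
    · have hy : y = toLex (Sum.inl b) := by rw [← hy']; rfl
      subst hx hy
      have h1 : ¬ (toLex (Sum.inr a) : Q ⊕ₗ P) < toLex (Sum.inl b) := Sum.Lex.not_inr_lt_inl
      simp only [h1, false_iff, ofLex_toLex, Sum.elim_inl, Sum.elim_inr, not_and, not_lt]
      intro _
      linarith [hC b, hB a]
    · have hy : y = toLex (Sum.inr b) := by rw [← hy']; rfl
      subst hx hy
      rw [Sum.Lex.inr_lt_inr_iff, hl']
      simp only [ofLex_toLex, Sum.elim_inr]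
      constructor
      · rintro ⟨h1, h2⟩
        exact ⟨h1, by linarith⟩
      · rintro ⟨h1, h2⟩
        exact ⟨h1, by linarith⟩

theorem R1.lex {P Q : Type} [Fintype P] [PartialOrder P] [Fintype Q] [PartialOrder Q]
    (hQ : R1 Q) (hP : R1 P) : R1 (Q ⊕ₗ P) := by
  obtain ⟨l, hl⟩ := hQ
  obtain ⟨l', hl'⟩ := hP
  obtain ⟨-, C, -, hC⟩ := bounds l
  obtain ⟨B, -, hB, -⟩ := bounds l'
  refine ⟨fun x => Sum.elim l (fun p => l' p + (C - B + 2)) (ofLex x), ?_⟩
  intro x y
  rcases hx' : ofLex x with a | a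
  · have hx : x = toLex (Sum.inl a) := by rw [← hx']; rfl
    rcases hy' : ofLex y with b | b
    · have hy : y = toLex (Sum.inl b) := by rw [← hy']; rfl
      subst hx hy
      rw [Sum.Lex.inl_lt_inl_iff, hl]
      simp
    · have hy : y = toLex (Sum.inr b) := by rw [← hy']; rfl
      subst hx hy
      have h1 : (toLex (Sum.inl a) : Q ⊕ₗ P) < toLex (Sum.inr b) := Sum.Lex.inl_lt_inr a b
      simp only [h1, true_iff, ofLex_toLex, Sum.elim_inl, Sum.elim_inr]
      linarith [hC a, hB b]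
  · have hx : x = toLex (Sum.inr a) := by rw [← hx']; rfl
    rcases hy' : ofLex y with b | b
    · have hy : y = toLex (Sum.inl b) := by rw [← hy']; rfl
      subst hx hy
      have h1 : ¬ (toLex (Sum.inr a) : Q ⊕ₗ P) < toLex (Sum.inl b) := Sum.Lex.not_inr_lt_inl
      simp only [h1, false_iff, ofLex_toLex, Sum.elim_inl, Sum.elim_inr, not_lt]
      linarith [hC b, hB a]
    · have hy : y = toLex (Sum.inr b) := by rw [← hy']; rfl
      subst hx hy
      rw [Sum.Lex.inr_lt_inr_iff, hl']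
      simp only [ofLex_toLex, Sum.elim_inr]
      constructor
      · intro h; linarith
      · intro h; linarith

theorem R2.point {P : Type} [Fintype P] [PartialOrder P] (hP : R2 P) : R2 (P ⊕ Fin 1) := by
  obtain ⟨l, T, hl⟩ := hP
  obtain ⟨B, -, hB, -⟩ := bounds l
  refine ⟨Sum.elim l (fun _ => B), Sum.elim T (fun _ => True), ?_⟩
  intro x y
  rcases x with a | a <;> rcases y with b | b
  · rw [Sum.inl_lt_inl_iff, hl]
    simp
  · simp only [Sum.not_inl_lt_inr, Sum.elim_inl, Sum.elim_inr, false_iff, not_and, not_lt]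
    intro _
    linarith [hB a]
  · simp
  · simp

theorem r1_chain (q : ℕ) : R1 (Fin q) := by
  refine ⟨fun i => 2 * ((i : ℕ) : ℝ), ?_⟩
  intro x y
  rw [Fin.lt_def]
  constructor
  · intro h
    have h1 : ((x : ℕ) : ℝ) + 1 ≤ ((y : ℕ) : ℝ) := by exact_mod_cast h
    linarith
  · intro h
    have h1 : ((x : ℕ) : ℝ) < ((y : ℕ) : ℝ) := by linarith
    exact_mod_cast h1

theorem r1_HG (r : ℕ) : R1 (HG r) := by
  refine ⟨fun x => match x with
    | HG.a i => ((i : ℕ) : ℝ) / (2 * r + 2)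
    | HG.b i => 1 + (((i : ℕ) : ℝ) + 1 / 2) / (2 * r + 2), ?_⟩
  have hr : (0 : ℝ) < 2 * r + 2 := by positivity
  have hsm : ∀ i : Fin r, ((i : ℕ) : ℝ) / (2 * r + 2) < 1 / 2 := by
    intro i
    rw [div_lt_iff₀ hr]
    have : ((i : ℕ) : ℝ) < r := by exact_mod_cast i.2
    linarith
  have hsm' : ∀ i : Fin r, (((i : ℕ) : ℝ) + 1 / 2) / (2 * r + 2) < 1 / 2 := by
    intro i
    rw [div_lt_iff₀ hr]
    have : ((i : ℕ) : ℝ) < r := by exact_mod_cast i.2
    linarith
  have hnn : ∀ i : Fin r, 0 ≤ ((i : ℕ) : ℝ) / (2 * r + 2) := fun i => by positivity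
  have hnn' : ∀ i : Fin r, 0 ≤ (((i : ℕ) : ℝ) + 1 / 2) / (2 * r + 2) := fun i => by positivity
  intro x y
  cases x with
  | a i =>
    cases y with
    | a j =>
      simp only
      constructor
      · intro h
        exact absurd (congrArg HG.a (a_le_a.1 h.le)) h.ne
      · intro h
        linarith [hnn i, hsm j]
    | b j =>
      simp only
      have h1 : (HG.a i : HG r) < HG.b j ↔ i ≤ j := by
        rw [lt_iff_le_and_ne, a_le_b]
        constructor
        · exact fun h => h.1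
        · exact fun h => ⟨h, by intro h; cases h⟩
      rw [h1, Fin.le_def]
      have h2 : (((i : ℕ) : ℝ) / (2 * r + 2) + 1 < 1 + (((j : ℕ) : ℝ) + 1 / 2) / (2 * r + 2)) ↔
          ((i : ℕ) : ℝ) / (2 * r + 2) < (((j : ℕ) : ℝ) + 1 / 2) / (2 * r + 2) := by
        constructor <;> intro h <;> linarith
      rw [h2, div_lt_div_iff_of_pos_right hr]
      constructor
      · intro h
        have : ((i : ℕ) : ℝ) ≤ ((j : ℕ) : ℝ) := by exact_mod_cast h
        linarith
      · intro h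
        by_contra hc
        have : ((j : ℕ) : ℝ) + 1 ≤ ((i : ℕ) : ℝ) := by exact_mod_cast not_le.1 hc
        linarith
  | b i =>
    cases y with
    | a j =>
      simp only
      constructor
      · intro h
        exact absurd h.le b_le_a
      · intro h
        linarith [hnn' i, hsm j]
    | b j =>
      simp only
      constructor
      · intro h
        exact absurd (congrArg HG.b (b_le_b.1 h.le)) h.ne
      · intro h
        linarith [hnn' i, hsm' j]

/-- as `Ex`, for unit interval orders -/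
def Ex1 (ε : ℝ) (w n : ℕ) (S : Set ℝ) : Prop :=
  ∃ (P : Type) (_ : Fintype P) (_ : PartialOrder P), (Fintype.card P = n ∧ HasWidth P w ∧
    Good P ε ∧ ∀ x : P, (n : ℝ) + 1 - ht P x ∈ S) ∧ R1 P

/-- as `Ex`, for interval orders with two lengths -/
def Ex2 (ε : ℝ) (w n : ℕ) (S : Set ℝ) : Prop :=
  ∃ (P : Type) (_ : Fintype P) (_ : PartialOrder P), (Fintype.card P = n ∧ HasWidth P w ∧
    Good P ε ∧ ∀ x : P, (n : ℝ) + 1 - ht P x ∈ S) ∧ R2 P

theorem Ex1.ex2 {ε : ℝ} {w n : ℕ} {S : Set ℝ} (h : Ex1 ε w n S) : Ex2 ε w n S := by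
  obtain ⟨P, i1, i2, h1, h2⟩ := h
  exact ⟨P, i1, i2, h1, h2.r2⟩

theorem Ex1.mono {ε : ℝ} {w n : ℕ} {S T : Set ℝ} (h : Ex1 ε w n S) (hST : ∀ s ∈ S, s ∈ T) :
    Ex1 ε w n T := by
  obtain ⟨P, i1, i2, ⟨h1, h2, h3, h4⟩, h5⟩ := h
  exact ⟨P, i1, i2, ⟨h1, h2, h3, fun x => hST _ (h4 x)⟩, h5⟩

end Pool.Agent.W6h19.KS
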