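import Mathlib
import Pool.Agent.W6h19.KS.Rep

set_option autoImplicit false

/-!
# The building blocks with their interval representations

The proofs are those of `Pool.Agent.H581.KS`, with the posets in the statements.
-/

open Finset

namespace Pool.Agent.W6h19.KS

open Pool.Agent.H931R3.Bal Pool.Agent.H581.KS Pool.Agent.H581.KS.HG Pool.Agent.H581.KS.HALF

theorem lex_core {P Q : Type} [fP : Fintype P] [oP : PartialOrder P] [fQ : Fintype Q]
    [oQ : PartialOrder Q] {ε : ℝ} {w v n m : ℕ} {S T : Set ℝ} (hPc : Fintype.card P = n)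
    (hPw : HasWidth P w) (hPg : Good P ε) (hPs : ∀ x : P, (n : ℝ) + 1 - ht P x ∈ S)
    (hQc : Fintype.card Q = m) (hQw : HasWidth Q v) (hQg : Good Q ε)
    (hQs : ∀ x : Q, (m : ℝ) + 1 - ht Q x ∈ T) :
    Fintype.card (Q ⊕ₗ P) = m + n ∧ HasWidth (Q ⊕ₗ P) (max w v) ∧ Good (Q ⊕ₗ P) ε ∧
      ∀ x : Q ⊕ₗ P, ((m + n : ℕ) : ℝ) + 1 - ht (Q ⊕ₗ P) x ∈ {t | t ∈ S ∨ t - n ∈ T} := by
  have hcard : Fintype.card (Q ⊕ₗ P) = m + n := by
    have : Fintype.card (Q ⊕ₗ P) = Fintype.card (Q ⊕ P) := Fintype.card_congr ofLex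
    rw [this, Fintype.card_sum, hPc, hQc]
  refine ⟨hcard, ?_, ?_, ?_⟩
  · rw [max_comm]
    exact width_lex hQw hPw
  · intro x y hxy hyx
    rw [hcard]
    rcases hx' : ofLex x with a | a
    · have hx : x = toLex (Sum.inl a) := by rw [← hx']; rfl
      rcases hy' : ofLex y with b | b
      · have hy : y = toLex (Sum.inl b) := by rw [← hy']; rfl
        subst hx hy
        rw [pr_lex_inl hQc hPc]
        have := hQg a b (fun h => hxy (Sum.Lex.inl_le_inl_iff.2 h))
          (fun h => hyx (Sum.Lex.inl_le_inl_iff.2 h))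
        rwa [hQc] at this
      · have hy : y = toLex (Sum.inr b) := by rw [← hy']; rfl
        subst hx hy
        exact absurd (Sum.Lex.inl_le_inr a b) hxy
    · have hx : x = toLex (Sum.inr a) := by rw [← hx']; rfl
      rcases hy' : ofLex y with b | b
      · have hy : y = toLex (Sum.inl b) := by rw [← hy']; rfl
        subst hx hy
        exact absurd (Sum.Lex.inl_le_inr b a) hyx
      · have hy : y = toLex (Sum.inr b) := by rw [← hy']; rfl
        subst hx hy
        rw [pr_lex_inr hQc hPc]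
        have := hPg a b (fun h => hxy (Sum.Lex.inr_le_inr_iff.2 h))
          (fun h => hyx (Sum.Lex.inr_le_inr_iff.2 h))
        rwa [hPc] at this
  · intro x
    unfold ht
    rw [hcard]
    rcases hx' : ofLex x with a | a
    · have hx : x = toLex (Sum.inl a) := by rw [← hx']; rfl
      subst hx
      right
      have := hQs a
      unfold ht at this
      rw [hQc] at this
      rw [avg_lex_inl hQc hPc]
      push_cast
      rw [show (m : ℝ) + n + 1 - avg Q m a (fun i => (i : ℝ) + 1) - n =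
        m + 1 - avg Q m a (fun i => (i : ℝ) + 1) by ring]
      exact this
    · have hx : x = toLex (Sum.inr a) := by rw [← hx']; rfl
      subst hx
      left
      have := hPs a
      unfold ht at this
      rw [hPc] at this
      rw [avg_lex_inr hQc hPc]
      have h3 : avg P n a (fun i => ((m + i : ℕ) : ℝ) + 1) =
          m + avg P n a (fun i => (i : ℝ) + 1) := by
        unfold avg
        have h4 : (Fintype.card (LEn P n) : ℝ) ≠ 0 := card_ne hPc
        have h5 : ∑ f : LEn P n, (((m + ((f.1 a : Fin n) : ℕ) : ℕ) : ℝ) + 1) =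
            (Fintype.card (LEn P n) : ℝ) * m + ∑ f : LEn P n, ((((f.1 a : Fin n) : ℕ) : ℝ) + 1) := by
          have : ∀ f : LEn P n, (((m + ((f.1 a : Fin n) : ℕ) : ℕ) : ℝ) + 1) =
              (m : ℝ) + ((((f.1 a : Fin n) : ℕ) : ℝ) + 1) := by
            intro f; push_cast; ring
          rw [Finset.sum_congr rfl (fun f _ => this f), Finset.sum_add_distrib, Finset.sum_const,
            Finset.card_univ, nsmul_eq_mul]
        rw [h5]
        field_simp
      rw [h3]
      push_cast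
      rw [show (m : ℝ) + n + 1 - (m + avg P n a (fun i => (i : ℝ) + 1)) =
        n + 1 - avg P n a (fun i => (i : ℝ) + 1) by ring]
      exact this

theorem pt_core {P : Type} [iF : Fintype P] [iP : PartialOrder P] {ε : ℝ} {w n : ℕ} {S : Set ℝ}
    (hn : Fintype.card P = n) (hw : HasWidth P w) (hg : Good P ε)
    (hS : ∀ x : P, (n : ℝ) + 1 - ht P x ∈ S)
    (h : ∀ s ∈ S, ε * (n + 1) ≤ |s - (n + 1) / 2|) :
    Fintype.card (P ⊕ Fin 1) = n + 1 ∧ HasWidth (P ⊕ Fin 1) (w + 1) ∧ Good (P ⊕ Fin 1) ε ∧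
      ∀ x : P ⊕ Fin 1, ((n + 1 : ℕ) : ℝ) + 1 - ht (P ⊕ Fin 1) x ∈
        {t : ℝ | t = ((n : ℝ) + 2) / 2 ∨ t * (n + 1) / (n + 2) ∈ S} := by
  have hc : Fintype.card (P ⊕ Fin 1) = n + 1 := by simp [hn]
  have hpos : (0 : ℝ) < (n : ℝ) + 1 := by positivity
  have hpos2 : (0 : ℝ) < (n : ℝ) + 2 := by positivity
  have key : ∀ x : P, ε ≤ |1 / 2 - avg P n x (fun i => (i : ℝ) + 1) / (n + 1)| := by
    intro x
    have h2 := h _ (hS x)
    unfold ht at h2
    rw [hn] at h2
    have h3 : (n : ℝ) + 1 - avg P n x (fun i => (i : ℝ) + 1) - (n + 1) / 2 =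
        (1 / 2 - avg P n x (fun i => (i : ℝ) + 1) / (n + 1)) * (n + 1) := by
      field_simp
      ring
    rw [h3, abs_mul, abs_of_pos hpos] at h2
    exact le_of_mul_le_mul_right h2 hpos
  refine ⟨hc, width_point hw, ?_, ?_⟩
  · intro a b hab hba
    rw [hc]
    rcases a with a | a <;> rcases b with b | b
    · rw [pr_disj_inl hn (by simp)]
      have := hg a b (fun hh => hab (Sum.inl_le_inl_iff.2 hh))
        (fun hh => hba (Sum.inl_le_inl_iff.2 hh))
      rwa [hn] at this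
    · rw [pr_pt_inl_inr hn]
      have := key a
      rwa [show 1 - avg P n a (fun i => (i : ℝ) + 1) / (n + 1) - 1 / 2 =
        1 / 2 - avg P n a (fun i => (i : ℝ) + 1) / (n + 1) by ring]
    · rw [pr_pt_inr_inl hn]
      have := key b
      rwa [abs_sub_comm]
    · exact absurd (by rw [Subsingleton.elim a b]) hab
  · intro a
    unfold ht
    rw [hc]
    rcases a with a | a
    · right
      rw [avg_pt_inl hn]
      have h2 := hS a
      unfold ht at h2
      rw [hn] at h2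
      convert h2 using 1
      push_cast
      field_simp
      ring
    · left
      rw [avg_pt_inr hn]
      push_cast
      ring

theorem ex_chain1 (ε : ℝ) {q : ℕ} (hq : 1 ≤ q) : Ex1 ε 1 q {t | 1 ≤ t ∧ t ≤ q} := by
  refine ⟨Fin q, inferInstance, inferInstance, ⟨Fintype.card_fin q, ⟨⟨{⟨0, by omega⟩}, ?_, ?_⟩, ?_⟩,
    ?_, ?_⟩, r1_chain q⟩
  · rw [Finset.coe_singleton]
    exact IsAntichain.singleton
  · exact Finset.card_singleton _
  · intro s hs
    rw [Finset.card_le_one]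
    intro a ha b hb
    by_contra hne
    rcases le_total a b with h | h
    · exact hs (Finset.mem_coe.2 ha) (Finset.mem_coe.2 hb) hne h
    · exact hs (Finset.mem_coe.2 hb) (Finset.mem_coe.2 ha) (Ne.symm hne) h
  · intro x y h1 h2
    rcases le_total x y with h | h
    · exact absurd h h1
    · exact absurd h h2
  · intro x
    have hc : Fintype.card (Fin q) = q := Fintype.card_fin q
    have h1 : 1 ≤ ht (Fin q) x := by
      apply le_avg rfl
      intro f
      have : (0 : ℝ) ≤ (((f.1 x : Fin _) : ℕ) : ℝ) := Nat.cast_nonneg _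
      linarith
    have h2 : ht (Fin q) x ≤ q := by
      apply avg_le rfl
      intro f
      have : (((f.1 x : Fin _) : ℕ)) + 1 ≤ q := by
        have h3 := (f.1 x).2
        omega
      exact_mod_cast this
    rw [Set.mem_ofPred_eq]
    constructor <;> linarith

/-- `ex_half` from the other pieces -/
theorem half_core_of
    (hAB : ∀ {r : ℕ} (i j : Fin r), j < i →
      1 / 2 + 1 / (8 * (r : ℝ) ^ 2) ≤ pr (HG r) (2 * r) (a i) (b j))
    (hAA : ∀ {r : ℕ} (i j : Fin r), i < j →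
      1 / 2 + 1 / (8 * (r : ℝ) ^ 2) ≤ pr (HG r) (2 * r) (a i) (a j))
    (hPD : ∀ {r : ℕ} (x y : HG r), pr (HG r) (2 * r) (dl y) (dl x) = pr (HG r) (2 * r) x y)
    (hHD : ∀ {r : ℕ} (x : HG r), ht (HG r) (dl x) = 2 * r + 1 - ht (HG r) x)
    (hW : ∀ r : ℕ, HasWidth (HG r) r)
    (hC1 : ∀ r : ℕ, (r + 1) * (r + 2) * Fintype.card (LEn (HG r) (2 * r)) ≤
      2 * Fintype.card (LEn (HG (r + 1)) (2 * (r + 1))))
    (hC2 : ∀ (r : ℕ) (i : Fin (r + 1)),
      Nat.card {f : LEn (HG (r + 1)) (2 * (r + 1)) // ((f.1 (a i) : Fin (2 * (r + 1))) : ℕ) = 0} ≤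
        (2 * r + 1) * Fintype.card (LEn (HG r) (2 * r)))
    (hC3 : ∀ {P : Type} [Fintype P] [PartialOrder P] {n : ℕ} (_ : Fintype.card P = n) (x : P)
      (_ : ∀ y, y ≤ x → y = x) (t : ℕ),
      Nat.card {f : LEn P n // ((f.1 x : Fin n) : ℕ) = t} ≤
        Nat.card {f : LEn P n // ((f.1 x : Fin n) : ℕ) = 0})
    (hM : ∀ {P : Type} [Fintype P] [PartialOrder P] {n : ℕ} (_ : Fintype.card P = n) (x : P)
      (c : ℝ) (_ : 0 < c) (_ : ∀ t : ℕ, c * Nat.card {f : LEn P n // ((f.1 x : Fin n) : ℕ) = t} ≤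
        Fintype.card (LEn P n)), c / 2 ≤ ht P x)
    {ε : ℝ} {r : ℕ} (hr : 1 ≤ r) (hε : 8 * (r : ℝ) ^ 2 * ε ≤ 1) :
    Fintype.card (HG r) = 2 * r ∧ HasWidth (HG r) r ∧ Good (HG r) ε ∧
      ∀ x : HG r, ((2 * r : ℕ) : ℝ) + 1 - ht (HG r) x ∈
        {t | ((r : ℝ) + 1) / 8 ≤ t ∧ t ≤ 2 * r + 1 - ((r : ℝ) + 1) / 8} := by
  have hr0 : (0 : ℝ) < r := by exact_mod_cast hr
  have hd : ε ≤ 1 / (8 * (r : ℝ) ^ 2) := by
    rw [le_div_iff₀ (by positivity)]
    linarith
  have key : ∀ x y : HG r, x ≠ y →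
      (1 / 2 + 1 / (8 * (r : ℝ) ^ 2) ≤ pr (HG r) (2 * r) x y ∨
        1 / 2 + 1 / (8 * (r : ℝ) ^ 2) ≤ pr (HG r) (2 * r) y x) →
      ε ≤ |pr (HG r) (2 * r) x y - 1 / 2| := by
    intro x y hne h
    have h1 := pr_symm (card_HG r) x y hne
    rw [le_abs]
    rcases h with h | h
    · left; linarith
    · right; linarith
  have hA : ∀ i : Fin r, ((r : ℝ) + 1) / 8 ≤ ht (HG r) (a i) := by
    obtain ⟨s, rfl⟩ : ∃ s, r = s + 1 := ⟨r - 1, by omega⟩
    intro i
    have h0 : ((((s + 1 : ℕ) : ℝ) + 1) / 4) / 2 ≤ ht (HG (s + 1)) (a i) := by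
      apply hM (card_HG (s + 1)) (a i) _ (by positivity)
      intro t
      have hmin : ∀ y : HG (s + 1), y ≤ a i → y = a i := by
        intro y hy
        cases y with
        | a j => exact congrArg _ (a_le_a.1 hy)
        | b j => exact absurd hy b_le_a
      have e1 := hC3 (card_HG (s + 1)) (a i) hmin t
      have e2 := hC2 s i
      have e3 := hC1 s
      have e4 : (Nat.card {f : LEn (HG (s + 1)) (2 * (s + 1)) //
          ((f.1 (a i) : Fin (2 * (s + 1))) : ℕ) = t} : ℝ) ≤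
          (2 * s + 1) * (Fintype.card (LEn (HG s) (2 * s)) : ℝ) := by
        exact_mod_cast e1.trans e2
      have e5 : ((s : ℝ) + 1) * (s + 2) * (Fintype.card (LEn (HG s) (2 * s)) : ℝ) ≤
          2 * (Fintype.card (LEn (HG (s + 1)) (2 * (s + 1))) : ℝ) := by
        exact_mod_cast e3
      have e6 : (0 : ℝ) ≤ (Fintype.card (LEn (HG s) (2 * s)) : ℝ) := Nat.cast_nonneg _
      have e7 : (0 : ℝ) ≤ s := Nat.cast_nonneg _
      push_cast
      calc ((s : ℝ) + 1 + 1) / 4 * (Nat.card {f : LEn (HG (s + 1)) (2 * (s + 1)) //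
          ((f.1 (a i) : Fin (2 * (s + 1))) : ℕ) = t} : ℝ) ≤
          ((s : ℝ) + 1 + 1) / 4 * ((2 * s + 1) * (Fintype.card (LEn (HG s) (2 * s)) : ℝ)) := by
            apply mul_le_mul_of_nonneg_left e4 (by positivity)
        _ ≤ ((s : ℝ) + 1) * (s + 2) * (Fintype.card (LEn (HG s) (2 * s)) : ℝ) / 2 := by
            nlinarith [mul_nonneg e6 e7]
        _ ≤ _ := by linarith
    linarith
  have hB : ∀ x : HG r, ((r : ℝ) + 1) / 8 ≤ ht (HG r) x := by
    intro x
    cases x with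
    | a i => exact hA i
    | b j =>
      refine (hA j).trans (ht_mono ?_)
      exact a_le_b.2 le_rfl
  refine ⟨card_HG r, hW r, ?_, ?_⟩
  · intro x y h1 h2
    rw [card_HG r]
    have hne : x ≠ y := fun h => h1 (h ▸ le_rfl)
    apply key x y hne
    cases x with
    | a i =>
      cases y with
      | a j =>
        have hij : i ≠ j := fun h => hne (congrArg _ h)
        rcases lt_or_gt_of_ne hij with h | h
        · exact Or.inl (hAA i j h)
        · exact Or.inr (hAA j i h)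
      | b j =>
        left
        apply hAB
        rw [a_le_b] at h1
        exact not_le.1 h1
    | b i =>
      cases y with
      | a j =>
        right
        apply hAB
        rw [a_le_b] at h2
        exact not_le.1 h2
      | b j =>
        have hij : i ≠ j := fun h => hne (congrArg _ h)
        have e1 := hPD (r := r) (b i) (b j)
        have e2 := hPD (r := r) (b j) (b i)
        change pr (HG r) (2 * r) (a j.rev) (a i.rev) = _ at e1
        change pr (HG r) (2 * r) (a i.rev) (a j.rev) = _ at e2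
        rw [← e1, ← e2]
        rcases lt_or_gt_of_ne hij with h | h
        · exact Or.inl (hAA j.rev i.rev (Fin.rev_lt_rev.2 h))
        · exact Or.inr (hAA i.rev j.rev (Fin.rev_lt_rev.2 h))
  · intro x
    have h1 := hB x
    have h2 := hB (dl x)
    rw [hHD] at h2
    rw [Set.mem_ofPred_eq]
    push_cast
    constructor <;> linarith

theorem ex_half1 {ε : ℝ} {r : ℕ} (hr : 1 ≤ r) (hε : 8 * (r : ℝ) ^ 2 * ε ≤ 1) :
    Ex1 ε r (2 * r) {t | ((r : ℝ) + 1) / 8 ≤ t ∧ t ≤ 2 * r + 1 - ((r : ℝ) + 1) / 8} :=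
  ⟨HG r, inferInstance, inferInstance,
    half_core_of (fun i j h => pr_ab i j h) (fun i j h => pr_aa i j h) (fun x y => pr_dual x y)
    (fun x => ht_dual x) width_HG card_succ card_first (fun hn x hx t => card_at hn x hx t)
    (fun hn x c hc h => mean_ge hn x c hc h) hr hε, r1_HG r⟩

theorem ex_lex2 {ε : ℝ} {w v n m : ℕ} {S T : Set ℝ} (h1 : Ex2 ε w n S) (h2 : Ex1 ε v m T) :
    Ex2 ε (max w v) (m + n) {t | t ∈ S ∨ t - n ∈ T} := by
  obtain ⟨P, fP, oP, ⟨hPc, hPw, hPg, hPs⟩, hPr⟩ := h1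
  obtain ⟨Q, fQ, oQ, ⟨hQc, hQw, hQg, hQs⟩, hQr⟩ := h2
  exact ⟨Q ⊕ₗ P, inferInstance, inferInstance, lex_core hPc hPw hPg hPs hQc hQw hQg hQs,
    R2.lex hQr hPr⟩

theorem ex_lex1 {ε : ℝ} {w v n m : ℕ} {S T : Set ℝ} (h1 : Ex1 ε w n S) (h2 : Ex1 ε v m T) :
    Ex1 ε (max w v) (m + n) {t | t ∈ S ∨ t - n ∈ T} := by
  obtain ⟨P, fP, oP, ⟨hPc, hPw, hPg, hPs⟩, hPr⟩ := h1
  obtain ⟨Q, fQ, oQ, ⟨hQc, hQw, hQg, hQs⟩, hQr⟩ := h2
  exact ⟨Q ⊕ₗ P, inferInstance, inferInstance, lex_core hPc hPw hPg hPs hQc hQw hQg hQs,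
    R1.lex hQr hPr⟩

theorem ex_point2 {ε : ℝ} {w n : ℕ} {S : Set ℝ} (h1 : Ex2 ε w n S)
    (h : ∀ s ∈ S, ε * (n + 1) ≤ |s - (n + 1) / 2|) :
    Ex2 ε (w + 1) (n + 1) {t | t = ((n : ℝ) + 2) / 2 ∨ t * (n + 1) / (n + 2) ∈ S} := by
  obtain ⟨P, iF, iP, ⟨hn, hw, hg, hS⟩, hR⟩ := h1
  exact ⟨P ⊕ Fin 1, inferInstance, inferInstance, pt_core hn hw hg hS h, R2.point hR⟩

end Pool.Agent.W6h19.KS
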