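import Mathlib
import Pool.Agent.TH447.KS.IntFin

set_option autoImplicit false

/-!
# Interval orders of bounded nesting depth have balanced pairs
-/

open Finset Classical

namespace Pool.Agent.W6h19.KS

open Pool.Agent.H13R3.WB Pool.Agent.H931R3.Bal Pool.Agent.TH447.KS

/-- `P` has a representation by closed intervals (`x < y` if and only if the interval of `x` is
entirely to the left of the interval of `y`) in which there are no `k + 1` intervals each of which
lies in the interior of the next one. -/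
def Nested (P : Type) [PartialOrder P] (k : ℕ) : Prop :=
  ∃ l u : P → ℝ, (∀ x, l x ≤ u x) ∧ (∀ x y : P, x < y ↔ u x < l y) ∧
    ¬ ∃ c : ℕ → P, ∀ i, i < k → l (c (i + 1)) < l (c i) ∧ u (c i) < u (c (i + 1))

/-- `P` has a representation by closed intervals with at most `k` different lengths. -/
def Lengths (P : Type) [PartialOrder P] (k : ℕ) : Prop :=
  ∃ l u : P → ℝ, (∀ x, l x ≤ u x) ∧ (∀ x y : P, x < y ↔ u x < l y) ∧
    ∃ Λ : Finset ℝ, Λ.card ≤ k ∧ ∀ x, u x - l x ∈ Λ

theorem Lengths.nested {P : Type} [PartialOrder P] {k : ℕ} (h : Lengths P k) : Nested P k := by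
  obtain ⟨l, u, h1, h2, Λ, h3, h4⟩ := h
  refine ⟨l, u, h1, h2, ?_⟩
  rintro ⟨c, hc⟩
  have hmono : ∀ j, j ≤ k → ∀ i, i < j → u (c i) - l (c i) < u (c j) - l (c j) := by
    intro j
    induction j with
    | zero => intro _ i hi; omega
    | succ j ih =>
      intro hj i hi
      have h5 := hc j (by omega)
      rcases Nat.lt_succ_iff_lt_or_eq.1 hi with h6 | h6
      · have := ih (by omega) i h6
        linarith [h5.1, h5.2]
      · subst h6
        linarith [h5.1, h5.2]
  have hcard : (range (k + 1)).card ≤ Λ.card := by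
    apply card_le_card_of_injOn (fun i => u (c i) - l (c i))
    · intro i _
      exact h4 _
    · intro i hi j hj hij
      rw [mem_coe, mem_range] at hi hj
      simp only at hij
      rcases lt_trichotomy i j with h | h | h
      · exact absurd hij (hmono j (by omega) i h).ne
      · exact h
      · exact absurd hij.symm (hmono i (by omega) j h).ne
  rw [card_range] at hcard
  omega

theorem Nested.interval {P : Type} [PartialOrder P] {k : ℕ} (h : Nested P k) :
    IsIntervalOrder P := by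
  obtain ⟨l, u, h1, h2, -⟩ := h
  exact ⟨l, u, h1, h2⟩

variable {P : Type} [Fintype P]

omit [Fintype P] in
/-- levels -/
lemma exists_level (N : P → P → Prop) (k : ℕ)
    (hN : ¬ ∃ c : ℕ → P, ∀ i, i < k → N (c i) (c (i + 1))) :
    ∃ lev : P → ℕ, (∀ x, lev x < k) ∧ ∀ x y, N x y → lev x < lev y := by
  let Q : P → ℕ → Prop := fun x m => ∃ c : ℕ → P, c m = x ∧ ∀ i, i < m → N (c i) (c (i + 1))
  have hQ0 : ∀ x, Q x 0 := fun x => ⟨fun _ => x, rfl, fun i hi => absurd hi (by omega)⟩
  have hQk : ∀ x m, Q x m → m < k := by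
    rintro x m ⟨c, -, hc⟩
    by_contra hm
    exact hN ⟨c, fun i hi => hc i (by omega)⟩
  have hspec : ∀ x, Q x (Nat.findGreatest (Q x) k) := fun x =>
    Nat.findGreatest_spec (P := Q x) (m := 0) (Nat.zero_le k) (hQ0 x)
  refine ⟨fun x => Nat.findGreatest (Q x) k, fun x => hQk x _ (hspec x), ?_⟩
  intro x y hxy
  obtain ⟨c, hc1, hc2⟩ := hspec x
  set m := Nat.findGreatest (Q x) k with hm
  have hmk : m < k := hQk x m ⟨c, hc1, hc2⟩
  have hy : Q y (m + 1) := by
    refine ⟨fun i => if i ≤ m then c i else y, by simp, ?_⟩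
    intro i hi
    have him : i ≤ m := by omega
    simp only [if_pos him]
    by_cases h : i + 1 ≤ m
    · rw [if_pos h]
      exact hc2 i (by omega)
    · rw [if_neg h]
      have : i = m := by omega
      rw [this, hc1]
      exact hxy
  have := Nat.le_findGreatest (P := Q y) (show m + 1 ≤ k by omega) hy
  show m < Nat.findGreatest (Q y) k
  omega

omit [Fintype P] in
/-- sorting a finite set by a real function -/
lemma exists_sorted (B : Finset P) (s : P → ℝ) (q : ℕ) (hq : q < B.card) :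
    ∃ z : ℕ → P, (∀ i, z i ∈ B) ∧ (∀ i, i < q → z i ≠ z (i + 1)) ∧
      ∀ i, i < q → s (z i) ≤ s (z (i + 1)) := by
  obtain ⟨e0⟩ : Nonempty (Fin B.card ≃ B) := ⟨(B.equivFin).symm⟩
  set σ := Tuple.sort (fun i => s (e0 i : P)) with hσ
  have hmono : Monotone ((fun i => s (e0 i : P)) ∘ σ) := Tuple.monotone_sort _
  have hinj : ∀ i j, (e0 (σ i) : P) = e0 (σ j) → i = j := by
    intro i j hij
    exact σ.injective (e0.injective (Subtype.ext hij))
  refine ⟨fun n => (e0 (σ ⟨min n q, by omega⟩) : P), fun i => (e0 _).2, ?_, ?_⟩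
  · intro i hi h
    have := hinj _ _ h
    rw [Fin.mk.injEq] at this
    omega
  · intro i hi
    apply hmono
    rw [Fin.le_def]
    simp only
    omega

/-- staggered antichains contain balanced pairs -/
theorem stag_pair {r : P → P → Prop} (l u : P → ℝ) (hr : ∀ x y, r x y ↔ u x < l y)
    (B : Finset P) (hB : ∀ a ∈ B, ∀ b ∈ B, ¬ r a b)
    (hst : ∀ a ∈ B, ∀ b ∈ B, ¬ (l b < l a ∧ u a < u b)) (s : ℕ) (hs1 : 1 ≤ s) (hs : s < B.card)
    (M : ℕ) (hM : ∀ x ∈ B, inc r x ≤ M) :
    ∃ x y, x ≠ y ∧ |cnt r x y - cnt r y x| ≤ 2 * (Lin r).card * (harmonic M : ℝ) / s := by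
  obtain ⟨z, hz1, hz2, hz3⟩ := exists_sorted B (fun x => l x + u x) s hs
  have key : ∀ i, i < s → l (z i) ≤ l (z (i + 1)) ∧ u (z i) ≤ u (z (i + 1)) := by
    intro i hi
    have h1 := hst _ (hz1 i) _ (hz1 (i + 1))
    have h2 := hst _ (hz1 (i + 1)) _ (hz1 i)
    have h3 : l (z i) + u (z i) ≤ l (z (i + 1)) + u (z (i + 1)) := hz3 i hi
    constructor
    · by_contra hc
      push Not at hc
      exact h1 ⟨hc, by linarith⟩
    · by_contra hc
      push Not at hc
      exact h2 ⟨by linarith, hc⟩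
  obtain ⟨i, hi, h⟩ := chain_pair r z s hs1 (fun i _ j _ => hB _ (hz1 i) _ (hz1 j))
    (fun i _ j _ w t h1 h2 => by
      have h3 := hB _ (hz1 j) _ (hz1 i)
      rw [hr] at h1 h2 h3 ⊢
      linarith)
    (Or.inl fun i hi t ht => by
      rw [hr] at ht ⊢
      linarith [(key i hi).2])
    (Or.inr fun i hi t ht => by
      rw [hr] at ht ⊢
      linarith [(key i hi).1]) M (fun i _ => hM _ (hz1 i))
  exact ⟨z i, z (i + 1), hz2 i hi, h⟩

/-- **Interval orders of bounded nesting depth.** -/
theorem nested_main {r : P → P → Prop} {w k : ℕ} (l u : P → ℝ) (hlu : ∀ x, l x ≤ u x)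
    (hr : ∀ x y, r x y ↔ u x < l y)
    (hN : ¬ ∃ c : ℕ → P, ∀ i, i < k → l (c (i + 1)) < l (c i) ∧ u (c i) < u (c (i + 1)))
    (hw : ∀ A : Finset P, (∀ a ∈ A, ∀ b ∈ A, ¬ r a b) → A.card ≤ w)
    (A : Finset P) (hA : ∀ a ∈ A, ∀ b ∈ A, ¬ r a b) (hAw : A.card = w) (hwpos : 1 ≤ w)
    (hpos : 0 < 1 / 2 - 3 * k * (1 + Real.log w) / w) :
    ∃ x y, x ≠ y ∧ (1 / 2 - 3 * k * (1 + Real.log w) / w) * ((Lin r).card : ℝ) ≤ cnt r x y ∧
      (1 / 2 - 3 * k * (1 + Real.log w) / w) * ((Lin r).card : ℝ) ≤ cnt r y x := by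
  have htr : ∀ a b c, r a b → r b c → r a c := by
    intro a b c h1 h2
    rw [hr] at h1 h2 ⊢
    linarith [hlu b]
  have hirr : ∀ a, ¬ r a a := by
    intro a h
    rw [hr] at h
    linarith [hlu a]
  have h22 : ∀ a b c d, r a b → r c d → r a d ∨ r c b := by
    intro a b c d h1 h2
    rw [hr] at h1 h2
    rw [hr, hr]
    rcases lt_or_ge (u a) (l d) with h | h
    · exact Or.inl h
    · right; linarith
  obtain ⟨x₀, hx₀⟩ : A.Nonempty := by rw [← card_pos]; omega
  have hk : 1 ≤ k := by
    by_contra hk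
    have : k = 0 := by omega
    subst this
    exact hN ⟨fun _ => x₀, fun i hi => absurd hi (by omega)⟩
  have hk1 : (1 : ℝ) ≤ k := by exact_mod_cast hk
  have hw1 : (1 : ℝ) ≤ w := by exact_mod_cast hwpos
  have hw0 : (0 : ℝ) < w := by linarith
  have hlog : 0 ≤ Real.log w := Real.log_nonneg hw1
  have h6 : 6 * (k * (1 + Real.log w)) < w := by
    have : 3 * k * (1 + Real.log w) / w < 1 / 2 := by linarith
    rw [div_lt_iff₀ hw0] at this
    linarith
  have hkl : (k : ℝ) ≤ k * (1 + Real.log w) := by nlinarith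
  have hw6 : (6 : ℝ) < w := by linarith
  by_cases hbig : ∃ x, (w : ℝ) * w ≤ inc r x
  · obtain ⟨x, hx⟩ := hbig
    have hm : 6 * w < inc r x := by
      have : (6 : ℝ) * w < inc r x := by nlinarith
      exact_mod_cast this
    obtain ⟨z, hxz, h1, h2⟩ := ladder htr hirr h22 hw x hm
    have hmpos : (0 : ℝ) < inc r x := by
      have : 0 < inc r x := by omega
      exact_mod_cast this
    have h3 : 3 * (w : ℝ) / inc r x ≤ 3 * k * (1 + Real.log w) / w := by
      rw [div_le_div_iff₀ hmpos hw0]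
      have : (inc r x : ℝ) ≤ k * (1 + Real.log w) * inc r x := by nlinarith
      nlinarith
    have h4 : (1 / 2 - 3 * k * (1 + Real.log w) / w) * ((Lin r).card : ℝ) ≤
        (1 / 2 - 3 * w / inc r x) * ((Lin r).card : ℝ) :=
      mul_le_mul_of_nonneg_right (by linarith) (Nat.cast_nonneg _)
    exact ⟨x, z, hxz, h4.trans h1, h4.trans h2⟩
  · push Not at hbig
    obtain ⟨lev, hlev1, hlev2⟩ := exists_level (fun x y => l y < l x ∧ u x < u y) k
      (fun ⟨c, hc⟩ => hN ⟨c, hc⟩)
    obtain ⟨j, -, hj⟩ := Finset.exists_le_card_fiber_of_mul_le_card_of_maps_to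
      (s := A) (t := range k) (f := lev) (n := w / k)
      (fun a _ => mem_range.2 (hlev1 a)) ⟨0, mem_range.2 (by omega)⟩ (by
        rw [card_range, hAw]; exact Nat.mul_div_le w k)
    set B := A.filter (fun x => lev x = j) with hBdef
    obtain ⟨q, hq⟩ : ∃ q, q = w / k := ⟨_, rfl⟩
    rw [← hq] at hj
    have hqR : (w : ℝ) < k * (q + 1) := by
      have : w < k * (q + 1) := by
        rw [hq]; exact Nat.lt_mul_div_succ w (by omega)
      exact_mod_cast this
    have hq6 : (5 : ℝ) < q := by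
      by_contra hc
      push Not at hc
      have : (k : ℝ) * (q + 1) ≤ k * 6 := mul_le_mul_of_nonneg_left (by linarith) (by linarith)
      linarith
    have hq6' : 5 < q := by exact_mod_cast hq6
    obtain ⟨s, hs⟩ : ∃ s, s = q - 1 := ⟨_, rfl⟩
    have hs5 : 1 ≤ s := by omega
    have hsR : (s : ℝ) = q - 1 := by
      rw [hs, Nat.cast_sub (by omega)]; simp
    obtain ⟨xm, hxm, hmax⟩ := exists_max_image (univ : Finset P) (fun x => inc r x)
      ⟨x₀, mem_univ _⟩
    set M := inc r xm with hM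
    obtain ⟨x, y, hxy, h⟩ := stag_pair (r := r) l u hr B
      (fun a ha b hb => hA a (mem_filter.1 ha).1 b (mem_filter.1 hb).1)
      (fun a ha b hb hab => by
        have h1 := hlev2 a b hab
        rw [(mem_filter.1 ha).2, (mem_filter.1 hb).2] at h1
        exact lt_irrefl _ h1) s hs5 (by omega) M (fun x _ => hmax x (mem_univ x))
    have hM1 : 1 ≤ M := by
      rw [hM, ← card_incS (hirr xm)]; omega
    have hMlog : (harmonic M : ℝ) ≤ 1 + 2 * Real.log w := by
      refine (harmonic_le_one_add_log M).trans ?_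
      have h1 : Real.log M ≤ Real.log ((w : ℝ) * w) := by
        apply Real.log_le_log (by exact_mod_cast hM1)
        exact (hbig xm).le
      rw [Real.log_mul hw0.ne' hw0.ne'] at h1
      linarith
    have hspos : (0 : ℝ) < s := by exact_mod_cast hs5
    have hsw : (w : ℝ) * 2 ≤ 3 * (k * s) := by
      rw [hsR]
      nlinarith
    have h1 : 2 * (Lin r).card * (harmonic M : ℝ) / s ≤
        2 * (3 * k * (1 + Real.log w) / w) * (Lin r).card := by
      have h2 : (harmonic M : ℝ) / s ≤ 3 * k * (1 + Real.log w) / w := by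
        rw [div_le_div_iff₀ hspos hw0]
        calc (harmonic M : ℝ) * w ≤ (1 + 2 * Real.log w) * w :=
              mul_le_mul_of_nonneg_right hMlog hw0.le
          _ ≤ (1 + 2 * Real.log w) * (3 / 2 * (k * s)) := by
              apply mul_le_mul_of_nonneg_left _ (by linarith)
              linarith
          _ ≤ 3 * k * (1 + Real.log w) * s := by
              have : (0 : ℝ) ≤ k * s := by positivity
              nlinarith
      calc 2 * (Lin r).card * (harmonic M : ℝ) / s =
          2 * ((harmonic M : ℝ) / s) * (Lin r).card := by ring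
        _ ≤ _ := by
          apply mul_le_mul_of_nonneg_right _ (Nat.cast_nonneg _)
          linarith
    obtain ⟨h2, h3⟩ := half_of_abs hxy (h.trans h1)
    exact ⟨x, y, hxy, h2, h3⟩

theorem nested_balance (P : Type) [Fintype P] [PartialOrder P] (k : ℕ) (hP : Nested P k) (w : ℕ)
    (hw1 : 1 ≤ w) (hw : HasWidth P w) :
    1 / 2 - 3 * k * (1 + Real.log w) / w ≤ balance P := by
  obtain ⟨⟨A, hA, hAc⟩, hwid⟩ := hw
  have hne : Nonempty P := by
    obtain ⟨x, _⟩ := Finset.card_pos.1 (show 0 < A.card by omega)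
    exact ⟨x⟩
  by_cases hpos : 0 < 1 / 2 - 3 * k * (1 + Real.log w) / w
  · obtain ⟨l, u, h1, h2, h3⟩ := hP
    obtain ⟨x, y, -, h1, h2⟩ := nested_main (r := lt' P) (w := w) (k := k) l u h1 h2 h3
      (fun B hB => hwid B (anti_iff.2 hB)) A (anti_iff.1 hA) hAc hw1 hpos
    exact le_balance_of_cnt h1 h2
  · exact (not_lt.1 hpos).trans balance_nonneg

end Pool.Agent.W6h19.KS
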