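import Mathlib
import Pool.Agent.H581.KS.Rec
import Pool.Agent.W6h19.KS.Core

set_option autoImplicit false

/-!
# The recursion for interval orders with two lengths

The proofs are those of `Pool.Agent.H581.KS.Rec` and `Pool.Agent.H581.KS.Iter`.
-/

open Finset

namespace Pool.Agent.W6h19.KS

open Pool.Agent.H931R3.Bal Pool.Agent.H581.KS Pool.Agent.H581.KS.HG Pool.Agent.H581.KS.HALF

theorem ex_block1 {ε : ℝ} {r : ℕ} (hr : 1 ≤ r) (hε : 8 * (r : ℝ) ^ 2 * ε ≤ 1) (q N : ℕ) :
    Ex1 ε r (2 * r * (N + 1) + q) (BT r q (N + 1)) := by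
  induction N with
  | zero =>
    rcases Nat.eq_zero_or_pos q with hq | hq
    · subst hq
      have h := ex_half1 hr hε
      have e : 2 * r * (0 + 1) + 0 = 2 * r := by ring
      rw [e]
      refine h.mono ?_
      intro s hs
      refine Or.inr ⟨0, by omega, ?_, ?_⟩
      · have := hs.1
        push_cast
        linarith
      · have := hs.2
        push_cast
        linarith
    · have h := ex_lex1 (ex_chain1 ε hq) (ex_half1 hr hε)
      have e : 2 * r * (0 + 1) + q = 2 * r + q := by ring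
      have e2 : max 1 r = r := max_eq_right hr
      rw [e2] at h
      rw [e]
      refine h.mono ?_
      rintro s (hs | hs)
      · exact Or.inl hs
      · refine Or.inr ⟨0, by omega, ?_, ?_⟩
        · have := hs.1
          push_cast
          linarith
        · have := hs.2
          push_cast
          linarith
  | succ N ih =>
    have h := ex_lex1 ih (ex_half1 hr hε)
    have e : 2 * r * (N + 1 + 1) + q = 2 * r + (2 * r * (N + 1) + q) := by ring
    rw [max_self] at h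
    rw [e]
    refine h.mono ?_
    rintro s (hs | hs)
    · rcases hs with hs | ⟨k, hk, hs⟩
      · exact Or.inl hs
      · exact Or.inr ⟨k, by omega, hs⟩
    · refine Or.inr ⟨N + 1, by omega, ?_, ?_⟩
      · have := hs.1
        push_cast at this ⊢
        linarith
      · have := hs.2
        push_cast at this ⊢
        linarith

/-- blocks with many free intervals -/
theorem block1 {ε : ℝ} {r b : ℕ} (hr : 7 ≤ r) (hε : 8 * (r : ℝ) ^ 2 * ε ≤ 1) (hb : 2 * r ≤ b) :
    ∃ T : Set ℝ, Ex1 ε r b T ∧ (∀ t ∈ T, 1 ≤ t ∧ t ≤ b) ∧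
      ∀ y : ℝ, 0 ≤ y → y ≤ b + 1 → ∃ p : ℝ, |p - y| ≤ 3 * r ∧ ((r : ℝ) + 1) / 16 ≤ p ∧
        p + ((r : ℝ) + 1) / 16 ≤ b ∧
        ∀ t ∈ T, t ≤ p - ((r : ℝ) + 1) / 16 ∨ p + ((r : ℝ) + 1) / 16 ≤ t := by
  have hr7 : (7 : ℝ) ≤ r := by exact_mod_cast hr
  obtain ⟨N, hN⟩ : ∃ N, b / (2 * r) = N + 1 := by
    have : 1 ≤ b / (2 * r) := by
      rw [Nat.one_le_div_iff (by omega)]
      exact hb
    exact ⟨b / (2 * r) - 1, by omega⟩
  set q := b % (2 * r) with hq
  have hbq : b = 2 * r * (N + 1) + q := by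
    have := Nat.div_add_mod b (2 * r)
    rw [hN] at this
    omega
  have hq2 : q < 2 * r := Nat.mod_lt _ (by omega)
  have hq2' : (q : ℝ) < 2 * r := by exact_mod_cast hq2
  have hbR : (b : ℝ) = 2 * r * (N + 1) + q := by
    rw [hbq]
    push_cast
    ring
  have hq0 : (0 : ℝ) ≤ q := Nat.cast_nonneg q
  refine ⟨BT r q (N + 1), ?_, ?_, ?_⟩
  · rw [hbq]
    exact ex_block1 (by omega) hε q N
  · rintro t (⟨h1, h2⟩ | ⟨k, hk, h1, h2⟩)
    · refine ⟨h1, h2.trans ?_⟩
      rw [hbR]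
      have : (0 : ℝ) ≤ 2 * r * (N + 1) := by positivity
      linarith
    · have hk0 : (0 : ℝ) ≤ k := Nat.cast_nonneg k
      have hkN : (k : ℝ) ≤ N := by exact_mod_cast Nat.lt_succ_iff.1 hk
      constructor
      · have : (0 : ℝ) ≤ 2 * r * k := by positivity
        linarith
      · rw [hbR]
        have : (2 : ℝ) * r * k ≤ 2 * r * N := by
          apply mul_le_mul_of_nonneg_left hkN
          positivity
        linarith
  · intro y hy0 hyb
    have key : ∃ k : ℕ, k ≤ N ∧ |(q : ℝ) + 2 * r * k + ((r : ℝ) + 1) / 16 - y| ≤ 3 * r := by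
      rcases lt_or_ge y q with hyq | hyq
      · refine ⟨0, by omega, ?_⟩
        rw [abs_le]
        constructor <;> push_cast <;> linarith
      · set j := ⌊(y - q) / (2 * r)⌋₊ with hj
        have hpos : (0 : ℝ) < 2 * r := by linarith
        have h0 : 0 ≤ (y - q) / (2 * r) := div_nonneg (by linarith) hpos.le
        have h1 : (j : ℝ) ≤ (y - q) / (2 * r) := Nat.floor_le h0
        have h2 : (y - q) / (2 * r) < j + 1 := Nat.lt_floor_add_one _
        rw [le_div_iff₀ hpos] at h1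
        rw [div_lt_iff₀ hpos] at h2
        rcases le_or_gt j N with hjN | hjN
        · refine ⟨j, hjN, ?_⟩
          rw [abs_le]
          constructor <;> nlinarith
        · refine ⟨N, le_rfl, ?_⟩
          have hjN' : (N : ℝ) + 1 ≤ j := by exact_mod_cast hjN
          have h3 : ((N : ℝ) + 1) * (2 * r) ≤ y - q := by nlinarith
          rw [abs_le]
          constructor <;> nlinarith
    obtain ⟨k, hk, hky⟩ := key
    have hk0 : (0 : ℝ) ≤ k := Nat.cast_nonneg k
    have hkN : (k : ℝ) ≤ N := by exact_mod_cast hk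
    have h2k : (0 : ℝ) ≤ 2 * r * k := by positivity
    have h2kN : (2 : ℝ) * r * k ≤ 2 * r * N := by
      apply mul_le_mul_of_nonneg_left hkN
      positivity
    refine ⟨(q : ℝ) + 2 * r * k + ((r : ℝ) + 1) / 16, hky, by linarith, ?_, ?_⟩
    · rw [hbR]
      linarith
    · rintro t (⟨h1, h2⟩ | ⟨j, hj, h1, h2⟩)
      · left
        linarith
      · rcases lt_or_ge j k with hjk | hjk
        · left
          have : (j : ℝ) + 1 ≤ k := by exact_mod_cast hjk
          have h3 : (2 : ℝ) * r * (j + 1) ≤ 2 * r * k := by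
            apply mul_le_mul_of_nonneg_left this
            positivity
          linarith
        · right
          have : (k : ℝ) ≤ j := by exact_mod_cast hjk
          have h3 : (2 : ℝ) * r * k ≤ 2 * r * j := by
            apply mul_le_mul_of_nonneg_left this
            positivity
          linarith

/-- the invariant of the recursion -/
def Inv2 (ε : ℝ) (w n : ℕ) : Prop :=
  ∃ S : Set ℝ, Ex2 ε w n S ∧ Gap ε n S ∧ ∀ s ∈ S, s ≤ n

theorem inv_base2 {ε : ℝ} (hε0 : 0 < ε) (hε1 : ε ≤ 1 / 100000) {n r : ℕ} (hn : 1 ≤ 8 * ε * n)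
    (hr1 : 320 * ε * n ≤ r) (hr2 : r ≤ 320 * ε * n + 1) (hr3 : 8 * (r : ℝ) ^ 2 * ε ≤ 1) :
    Inv2 ε r n := by
  have hn0 : (0 : ℝ) < n := by
    rcases Nat.eq_zero_or_pos n with h | h
    · subst h
      simp at hn
      linarith
    · exact_mod_cast h
  have hr40 : (40 : ℝ) ≤ r := by linarith
  have hr7 : 7 ≤ r := by
    have : (7 : ℝ) ≤ r := by linarith
    exact_mod_cast this
  have hrn : (r : ℝ) ≤ 328 * ε * n := by linarith
  have hεn : ε * n ≤ n / 100000 := by nlinarith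
  have h2r : 2 * r ≤ n := by
    have : (2 : ℝ) * r ≤ n := by nlinarith
    exact_mod_cast this
  obtain ⟨T, h1, h2, h3⟩ := block1 hr7 hr3 h2r
  refine ⟨T, h1.ex2, ?_, fun s hs => (h2 s hs).2⟩
  intro y hy1 hy2
  have hy0 : (n : ℝ) / 2 ≤ y := by nlinarith
  obtain ⟨p, hp1, hp2, hp3, hp4⟩ := h3 y (by linarith) (by linarith)
  have hpn : p ≤ n := by linarith
  have hp10 : p * (10 * ε) ≤ ((r : ℝ) + 1) / 16 := by nlinarith
  refine ⟨p, ?_, ?_, ?_⟩
  · refine hp1.trans ?_
    nlinarith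
  · nlinarith
  · intro s hs
    rcases hp4 s hs with h | h
    · left
      nlinarith
    · right
      nlinarith

theorem inv_step2 {ε : ℝ} (hε0 : 0 < ε) (hε1 : ε ≤ 1 / 100000) {w n r : ℕ} (hn : 1 ≤ 8 * ε * n)
    (hr1 : 320 * ε * n ≤ r) (hr2 : r ≤ 320 * ε * n + 1) (hr3 : 8 * (r : ℝ) ^ 2 * ε ≤ 1)
    (hrw : r ≤ w) (h : Inv2 ε w n) :
    ∃ n' : ℕ, n < n' ∧ (n' : ℝ) ≤ n * (1 + 5000 * ε) ∧ Inv2 ε (w + 1) n' := by
  obtain ⟨S, h1, h2, h3⟩ := h
  have hn0 : (0 : ℝ) < n := by
    rcases Nat.eq_zero_or_pos n with h | h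
    · subst h
      simp at hn
      linarith
    · exact_mod_cast h
  have hr40 : (40 : ℝ) ≤ r := by linarith
  have hr7 : 7 ≤ r := by
    have : (7 : ℝ) ≤ r := by linarith
    exact_mod_cast this
  obtain ⟨e, he⟩ : ∃ e : ℝ, e = ε * n := ⟨_, rfl⟩
  have he1 : 1 ≤ 8 * e := by rw [he]; linarith
  have he2 : e ≤ n / 100000 := by
    rw [he]
    have := mul_le_mul_of_nonneg_right hε1 hn0.le
    linarith
  have he3 : ε * e ≤ e / 100000 := by
    have := mul_le_mul_of_nonneg_right hε1 (show 0 ≤ e by linarith)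
    linarith
  have hr1' : 320 * e ≤ r := by rw [he]; linarith
  have hr2' : (r : ℝ) ≤ 320 * e + 1 := by rw [he]; linarith
  have hrn : (r : ℝ) ≤ 328 * e := by linarith
  obtain ⟨p, hp1, hp2, hp3⟩ := h2 ((1 / 2 + 1400 * ε) * n)
    (by rw [add_mul, mul_assoc, ← he, add_mul, mul_assoc, ← he]; linarith)
    (by rw [add_mul, mul_assoc, ← he]; linarith)
  have hy0 : (1 / 2 + 1400 * ε) * (n : ℝ) = n / 2 + 1400 * e := by rw [he]; ring
  rw [hy0] at hp1
  have herr : 2000 * ε * ((n : ℝ) / 2 + 1400 * e) ≤ 1028 * e := by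
    have : 2000 * ε * ((n : ℝ) / 2 + 1400 * e) = 1000 * e + 2800000 * (ε * e) := by rw [he]; ring
    rw [this]
    linarith
  have hp1' := abs_le.1 (hp1.trans herr)
  have hpl : (n : ℝ) / 2 + 372 * e ≤ p := by linarith [hp1'.1]
  have hpu : p ≤ (n : ℝ) / 2 + 2428 * e := by linarith [hp1'.2]
  have hp0 : 0 ≤ p := by linarith
  obtain ⟨M, hM⟩ : ∃ M : ℕ, M = ⌊2 * p⌋₊ := ⟨_, rfl⟩
  have hM1 : (M : ℝ) ≤ 2 * p := by rw [hM]; exact Nat.floor_le (by linarith)
  have hM2 : 2 * p < M + 1 := by rw [hM]; exact Nat.lt_floor_add_one _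
  have hMb : n + 1 + 2 * r ≤ M := by
    have : (n : ℝ) + 1 + 2 * r < M + 1 := by linarith
    have h' : n + 1 + 2 * r < M + 1 := by exact_mod_cast this
    omega
  obtain ⟨b, hb⟩ : ∃ b, M = b + n + 1 := ⟨M - n - 1, by omega⟩
  have h2r : 2 * r ≤ b := by omega
  obtain ⟨T, hT1, hT2, hT3⟩ := block1 hr7 hr3 h2r
  have hx := ex_lex2 h1 hT1
  rw [max_eq_left hrw] at hx
  obtain ⟨m, hm⟩ : ∃ m, m = b + n := ⟨_, rfl⟩
  rw [← hm] at hx
  have hmR : (m : ℝ) = b + n := by rw [hm]; push_cast; ring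
  have hMm : (M : ℝ) = m + 1 := by rw [hb, ← hm]; push_cast; ring
  have hmu : (m : ℝ) + 1 ≤ n + 4856 * e := by rw [← hMm]; linarith
  have hmn : (n : ℝ) ≤ m := by rw [hmR]; have : (0 : ℝ) ≤ b := Nat.cast_nonneg b; linarith
  have hpe : p * ε ≤ 0.6 * e := by
    have : p * ε ≤ ((n : ℝ) / 2 + 2428 * e) * ε := mul_le_mul_of_nonneg_right hpu hε0.le
    have e2 : ((n : ℝ) / 2 + 2428 * e) * ε = e / 2 + 2428 * (ε * e) := by rw [he]; ring
    linarith
  have hpe2 : 0.5 * e ≤ p * ε := by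
    have : ((n : ℝ) / 2) * ε ≤ p * ε := mul_le_mul_of_nonneg_right (by linarith) hε0.le
    have e2 : ((n : ℝ) / 2) * ε = e / 2 := by rw [he]; ring
    linarith
  have hcond : ∀ s ∈ {t : ℝ | t ∈ S ∨ t - n ∈ T}, ε * ((m : ℝ) + 1) ≤ |s - ((m : ℝ) + 1) / 2| := by
    have hεm : ε * ((m : ℝ) + 1) ≤ 2 * (p * ε) := by
      rw [← hMm]
      have := mul_le_mul_of_nonneg_left hM1 hε0.le
      linarith
    have hup : ∀ s : ℝ, p * (1 + 10 * ε) ≤ s → ε * ((m : ℝ) + 1) ≤ |s - ((m : ℝ) + 1) / 2| := by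
      intro s hs
      refine le_trans ?_ (le_abs_self _)
      rw [← hMm]
      rw [← hMm] at hεm
      have e5 : p * (1 + 10 * ε) = p + 10 * (p * ε) := by ring
      rw [e5] at hs
      linarith
    rintro s (hs | hs)
    · rcases hp3 s hs with h | h
      · rw [abs_sub_comm]
        refine le_trans ?_ (le_abs_self _)
        rw [← hMm]
        rw [← hMm] at hεm
        have e5 : p * (1 - 10 * ε) = p - 10 * (p * ε) := by ring
        rw [e5] at h
        linarith
      · exact hup s h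
    · apply hup
      have := (hT2 _ hs).1
      linarith
  have hy := ex_point2 hx hcond
  refine ⟨m + 1, by omega, ?_, _, hy, ?_, ?_⟩
  · push_cast
    have : (n : ℝ) * (1 + 5000 * ε) = n + 5000 * e := by rw [he]; ring
    rw [this]
    linarith
  · intro y hy1 hy2
    push_cast at hy1 hy2 ⊢
    have hm2 : (0 : ℝ) < (m : ℝ) + 2 := by positivity
    obtain ⟨z, hz⟩ : ∃ z : ℝ, z = y * (m + 1) / (m + 2) := ⟨_, rfl⟩
    have hz1 : z * ((m : ℝ) + 2) = y * (m + 1) := by rw [hz]; field_simp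
    have hz2 : (1 / 2 + 1200 * ε) * m ≤ z := by
      rw [hz]
      exact aux1 (by positivity) (Nat.cast_nonneg m) hy1
    have hz3 : z ≤ m + 1 := by
      rw [hz]
      exact aux2 (Nat.cast_nonneg m) hy2
    apply gap_scale hz1
    rcases le_or_gt z n with hzn | hzn
    · obtain ⟨p1, hq1, hq2, hq3⟩ := h2 z (by
        refine le_trans ?_ hz2
        apply mul_le_mul_of_nonneg_left hmn
        positivity) hzn
      refine ⟨p1, hq1, by linarith, ?_, ?_⟩
      · have hq1' := (abs_le.1 hq1).1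
        have hzε : ε * z ≤ e := by
          rw [he]
          exact mul_le_mul_of_nonneg_left hzn hε0.le
        obtain ⟨f, hf⟩ : ∃ f : ℝ, f = ε * m := ⟨_, rfl⟩
        have hef : e ≤ f := by
          rw [he, hf]
          exact mul_le_mul_of_nonneg_left hmn hε0.le
        have hεf : ε * f ≤ f / 100000 := by
          have := mul_le_mul_of_nonneg_right hε1 (show 0 ≤ f by linarith)
          linarith
        have h20 : 0 ≤ 1 - 2000 * ε := by linarith
        have h21 := mul_le_mul_of_nonneg_right hz2 h20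
        have h22 : (1 / 2 + 1200 * ε) * (m : ℝ) * (1 - 2000 * ε) =
            m / 2 + 200 * f - 2400000 * (ε * f) := by rw [hf]; ring
        rw [h22] at h21
        have h23 : z * (1 - 2000 * ε) ≤ p1 := by linarith
        have h24 : (m : ℝ) / 2 + 176 * f ≤ p1 := by linarith
        have h25 : p1 ≤ z + 2000 * ε * z := by linarith [(abs_le.1 hq1).2]
        have h26 : ε * (ε * z) ≤ (ε * z) / 100000 := by
          have h27 : 0 ≤ ε * z := mul_nonneg hε0.le (by
            have : (0 : ℝ) ≤ (1 / 2 + 1200 * ε) * m := by positivity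
            linarith)
          have := mul_le_mul_of_nonneg_right hε1 h27
          linarith
        have h28 : ε * p1 ≤ ε * (z + 2000 * ε * z) := mul_le_mul_of_nonneg_left h25 hε0.le
        have h29 : ε * (z + 2000 * ε * z) = ε * z + 2000 * (ε * (ε * z)) := by ring
        have h30 : p1 * (1 - 10 * ε) = p1 - 10 * (ε * p1) := by ring
        rw [h30]
        linarith
      · rintro s (hs | hs)
        · exact hq3 s hs
        · right
          have := (hT2 _ hs).1
          linarith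
    · obtain ⟨p1, hq1, hq2, hq3, hq4⟩ := hT3 (z - n) (by linarith) (by rw [hmR] at hz3; linarith)
      have hq1' := abs_le.1 hq1
      have hbm : (b : ℝ) + n = m := hmR.symm
      have hpm : p1 + n ≤ m := by linarith
      have hpε : (p1 + n) * (10 * ε) ≤ ((r : ℝ) + 1) / 16 := by
        have h8 : (p1 + n) * (10 * ε) ≤ (n + 4856 * e) * (10 * ε) :=
          mul_le_mul_of_nonneg_right (by linarith) (by positivity)
        have h9 : ((n : ℝ) + 4856 * e) * (10 * ε) = 10 * e + 48560 * (ε * e) := by rw [he]; ring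
        linarith
      refine ⟨p1 + n, ?_, ?_, ?_, ?_⟩
      · have e3 : p1 + n - z = p1 - (z - n) := by ring
        rw [e3]
        refine hq1.trans ?_
        have : e ≤ ε * z := by
          rw [he]
          exact mul_le_mul_of_nonneg_left hzn.le hε0.le
        linarith
      · have e5 : (p1 + n) * (1 + 10 * ε) = p1 + n + (p1 + n) * (10 * ε) := by ring
        rw [e5]
        linarith
      · have e5 : (p1 + n) * (1 - 10 * ε) = p1 + n - (p1 + n) * (10 * ε) := by ring
        rw [e5]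
        linarith
      · have e5 : (p1 + n) * (1 + 10 * ε) = p1 + n + (p1 + n) * (10 * ε) := by ring
        have e6 : (p1 + n) * (1 - 10 * ε) = p1 + n - (p1 + n) * (10 * ε) := by ring
        rw [e5, e6]
        rintro s (hs | hs)
        · left
          have := h3 s hs
          linarith
        · rcases hq4 _ hs with h | h
          · left
            linarith
          · right
            linarith
  · rintro s (hs | hs)
    · rw [hs]
      push_cast
      have : (0 : ℝ) ≤ m := Nat.cast_nonneg m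
      linarith
    · have hm2 : (0 : ℝ) < (m : ℝ) + 2 := by positivity
      have hs2 : s * ((m : ℝ) + 1) / (m + 2) ≤ m := by
        rcases hs with hs | hs
        · exact (h3 _ hs).trans hmn
        · have := (hT2 _ hs).2
          rw [hmR]
          rw [hmR] at this
          linarith
      push_cast
      exact aux3 (Nat.cast_nonneg m) hs2

theorem inv_iter2 {ε : ℝ} (hε0 : 0 < ε) (hε1 : ε ≤ 1 / 100000) {n0 w0 : ℕ} (hn : 1 ≤ 8 * ε * n0)
    (h0 : Inv2 ε w0 n0) (hw0 : 320 * ε * n0 ≤ w0) (L : ℕ) (X : ℝ)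
    (hX : (n0 : ℝ) * (1 + 5000 * ε) ^ L ≤ X) (hX1 : 8 * (320 * ε * X + 1) ^ 2 * ε ≤ 1)
    (hX2 : 1600000 * ε ^ 2 * X ≤ 1) : ∀ i : ℕ, i ≤ L → ∃ n : ℕ, n0 ≤ n ∧
      (n : ℝ) ≤ n0 * (1 + 5000 * ε) ^ i ∧ Inv2 ε (w0 + i) n ∧
      320 * ε * n ≤ ((w0 + i : ℕ) : ℝ) := by
  intro i
  induction i with
  | zero =>
    intro _
    exact ⟨n0, le_rfl, by simp, h0, by simpa using hw0⟩
  | succ i ih =>
    intro hi
    obtain ⟨n, h1, h2, h3, h4⟩ := ih (by omega)
    have h1' : (n0 : ℝ) ≤ n := by exact_mod_cast h1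
    have hb : (1 : ℝ) ≤ 1 + 5000 * ε := by linarith
    have hn0 : (0 : ℝ) ≤ n0 := Nat.cast_nonneg _
    have hnX : (n : ℝ) ≤ X := by
      refine h2.trans (le_trans ?_ hX)
      exact mul_le_mul_of_nonneg_left (pow_le_pow_right₀ hb (by omega)) hn0
    have hnn : (0 : ℝ) ≤ n := Nat.cast_nonneg _
    have hen : 0 ≤ 320 * ε * n := by positivity
    obtain ⟨r, hr⟩ : ∃ r : ℕ, r = ⌈320 * ε * n⌉₊ := ⟨_, rfl⟩
    have hr1 : 320 * ε * n ≤ r := by rw [hr]; exact Nat.le_ceil _
    have hr2 : (r : ℝ) ≤ 320 * ε * n + 1 := by rw [hr]; exact (Nat.ceil_lt_add_one hen).le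
    have hrw : r ≤ w0 + i := by rw [hr]; exact Nat.ceil_le.2 h4
    have hr3 : 8 * (r : ℝ) ^ 2 * ε ≤ 1 := by
      refine le_trans ?_ hX1
      apply mul_le_mul_of_nonneg_right _ hε0.le
      apply mul_le_mul_of_nonneg_left _ (by norm_num)
      apply pow_le_pow_left₀ (Nat.cast_nonneg _)
      refine hr2.trans ?_
      have : 320 * ε * (n : ℝ) ≤ 320 * ε * X := mul_le_mul_of_nonneg_left hnX (by positivity)
      linarith
    obtain ⟨n', g1, g2, g3⟩ := inv_step2 hε0 hε1 (n := n) (by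
      have : 8 * ε * (n0 : ℝ) ≤ 8 * ε * n := mul_le_mul_of_nonneg_left h1' (by positivity)
      linarith) hr1 hr2 hr3 hrw h3
    refine ⟨n', by omega, ?_, g3, ?_⟩
    · refine g2.trans ?_
      rw [pow_succ, ← mul_assoc]
      exact mul_le_mul_of_nonneg_right h2 (by linarith)
    · push_cast at h4 ⊢
      have e1 : 320 * ε * (n' : ℝ) ≤ 320 * ε * (n * (1 + 5000 * ε)) :=
        mul_le_mul_of_nonneg_left g2 (by positivity)
      have e2 : 1600000 * ε ^ 2 * (n : ℝ) ≤ 1600000 * ε ^ 2 * X :=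
        mul_le_mul_of_nonneg_left hnX (by positivity)
      have e3 : 320 * ε * ((n : ℝ) * (1 + 5000 * ε)) = 320 * ε * n + 1600000 * ε ^ 2 * n := by ring
      linarith

theorem exists_ex2 (w : ℕ) (hw : 14641 ≤ w) :
    ∃ (n : ℕ) (S : Set ℝ), Ex2 (Real.log w / (20000 * w)) w n S := by
  have hw0 : (0 : ℝ) < w := by
    have : (14641 : ℝ) ≤ w := by exact_mod_cast hw
    linarith
  have hwR : (14641 : ℝ) ≤ w := by exact_mod_cast hw
  obtain ⟨z, hz⟩ : ∃ z : ℝ, z = Real.exp (Real.log w / 4) := ⟨_, rfl⟩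
  have hz0 : 0 < z := by rw [hz]; exact Real.exp_pos _
  have hz4 : z ^ 4 = w := by
    rw [hz, ← Real.exp_nat_mul]
    rw [show ((4 : ℕ) : ℝ) * (Real.log w / 4) = Real.log w by push_cast; ring]
    exact Real.exp_log hw0
  have hz11 : 11 ≤ z := by
    by_contra hc
    push Not at hc
    have : z ^ 4 < 11 ^ 4 := pow_lt_pow_left₀ hc hz0.le (by norm_num)
    rw [hz4] at this
    norm_num at this
    linarith
  have hlog : Real.log w ≤ 4 * z := by
    have h1 : Real.log w / 4 + 1 ≤ z := by rw [hz]; exact Real.add_one_le_exp _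
    linarith
  have hlog0 : 0 < Real.log w := Real.log_pos (by linarith)
  obtain ⟨ε, hε⟩ : ∃ ε : ℝ, ε = Real.log w / (20000 * w) := ⟨_, rfl⟩
  have hε0 : 0 < ε := by rw [hε]; positivity
  have hεz : ε * (5000 * z ^ 3) ≤ 1 := by
    rw [hε, div_mul_eq_mul_div, div_le_one (by positivity)]
    have : Real.log w * (5000 * z ^ 3) ≤ 4 * z * (5000 * z ^ 3) :=
      mul_le_mul_of_nonneg_right hlog (by positivity)
    have e : 4 * z * (5000 * z ^ 3) = 20000 * z ^ 4 := by ring
    rw [e, hz4] at this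
    exact this
  have hz3 : (1331 : ℝ) ≤ z ^ 3 := by
    have := pow_le_pow_left₀ (by norm_num : (0 : ℝ) ≤ 11) hz11 3
    norm_num at this
    linarith
  have hε1 : ε ≤ 1 / 100000 := by nlinarith
  rw [← hε]
  have hwε : 5000 * ε * w = Real.log w / 4 := by
    rw [hε]
    field_simp
    ring
  obtain ⟨n0, hn0⟩ : ∃ n0 : ℕ, n0 = ⌈1 / (8 * ε)⌉₊ := ⟨_, rfl⟩
  have hn1 : 1 / (8 * ε) ≤ n0 := by rw [hn0]; exact Nat.le_ceil _
  have hn2 : (n0 : ℝ) ≤ 1 / (8 * ε) + 1 := by
    rw [hn0]; exact (Nat.ceil_lt_add_one (by positivity)).le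
  have hn3 : 1 ≤ 8 * ε * n0 := by
    rw [div_le_iff₀ (by positivity)] at hn1
    linarith
  have hn4 : ε * n0 ≤ 0.126 := by
    have h1 : ε * n0 ≤ ε * (1 / (8 * ε) + 1) := mul_le_mul_of_nonneg_left hn2 hε0.le
    have h2 : ε * (1 / (8 * ε) + 1) = 1 / 8 + ε := by field_simp
    rw [h2] at h1
    norm_num at hε1 ⊢
    linarith
  have hn5 : 0 ≤ ε * (n0 : ℝ) := by positivity
  obtain ⟨r, hr⟩ : ∃ r : ℕ, r = ⌈320 * ε * n0⌉₊ := ⟨_, rfl⟩
  have hr1 : 320 * ε * n0 ≤ r := by rw [hr]; exact Nat.le_ceil _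
  have hr2 : (r : ℝ) ≤ 320 * ε * n0 + 1 := by
    rw [hr]; exact (Nat.ceil_lt_add_one (by positivity)).le
  have hr42 : (r : ℝ) ≤ 42 := by
    have : 320 * ε * (n0 : ℝ) = 320 * (ε * n0) := by ring
    rw [this] at hr2
    norm_num at hn4
    linarith
  have hr0 : (0 : ℝ) ≤ r := Nat.cast_nonneg _
  have hrw : r ≤ w := by
    have : (r : ℝ) ≤ w := by linarith
    exact_mod_cast this
  have hr3 : 8 * (r : ℝ) ^ 2 * ε ≤ 1 := by
    have h1 : (r : ℝ) ^ 2 ≤ 42 ^ 2 := pow_le_pow_left₀ hr0 hr42 2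
    nlinarith
  have hbase := inv_base2 hε0 hε1 hn3 hr1 hr2 hr3
  have hpow : (1 + 5000 * ε) ^ (w - r) ≤ z := by
    have h1 : (1 + 5000 * ε) ^ (w - r) ≤ (1 + 5000 * ε) ^ w :=
      pow_le_pow_right₀ (by linarith) (by omega)
    refine h1.trans ?_
    have h2 : 1 + 5000 * ε ≤ Real.exp (5000 * ε) := by
      have := Real.add_one_le_exp (5000 * ε)
      linarith
    refine (pow_le_pow_left₀ (by positivity) h2 w).trans ?_
    rw [← Real.exp_nat_mul, mul_comm, hwε, hz]
  have hX : (n0 : ℝ) * (1 + 5000 * ε) ^ (w - r) ≤ n0 * z :=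
    mul_le_mul_of_nonneg_left hpow (Nat.cast_nonneg _)
  have hX1 : 8 * (320 * ε * (n0 * z) + 1) ^ 2 * ε ≤ 1 := by
    have h1 : 320 * ε * (n0 * z) + 1 ≤ 42 * z := by
      have e : 320 * ε * (n0 * z) = 320 * (ε * n0) * z := by ring
      rw [e]
      have : 320 * (ε * n0) * z ≤ 320 * 0.126 * z := by
        apply mul_le_mul_of_nonneg_right _ hz0.le
        linarith
      norm_num at this
      linarith
    have h2 : (320 * ε * (n0 * z) + 1) ^ 2 ≤ (42 * z) ^ 2 :=
      pow_le_pow_left₀ (by positivity) h1 2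
    have h3 : 8 * (320 * ε * (n0 * z) + 1) ^ 2 * ε ≤ 8 * (42 * z) ^ 2 * ε := by
      apply mul_le_mul_of_nonneg_right _ hε0.le
      linarith
    have h4 : 8 * (42 * z) ^ 2 * ε = 14112 * (z ^ 2 * ε) := by ring
    have h5 : z ^ 2 * ε * (55000 : ℝ) ≤ 1 := by
      refine le_trans ?_ hεz
      have : z ^ 2 * ε * 55000 ≤ z ^ 2 * ε * (5000 * z) := by
        apply mul_le_mul_of_nonneg_left _ (by positivity)
        linarith
      refine this.trans (le_of_eq ?_)
      ring
    rw [h4] at h3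
    linarith
  have hX2 : 1600000 * ε ^ 2 * (n0 * z) ≤ 1 := by
    have e : 1600000 * ε ^ 2 * (n0 * z) = 1600000 * (ε * n0) * (ε * z) := by ring
    rw [e]
    have h5 : ε * z * (605000 : ℝ) ≤ 1 := by
      refine le_trans ?_ hεz
      have : ε * z * 605000 ≤ ε * z * (5000 * z ^ 2) := by
        apply mul_le_mul_of_nonneg_left _ (by positivity)
        nlinarith
      refine this.trans (le_of_eq ?_)
      ring
    have h6 : 1600000 * (ε * n0) * (ε * z) ≤ 1600000 * 0.126 * (ε * z) := by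
      apply mul_le_mul_of_nonneg_right _ (by positivity)
      linarith
    norm_num at h6
    linarith
  obtain ⟨n, -, -, h3, -⟩ := inv_iter2 hε0 hε1 hn3 hbase hr1 (w - r) (n0 * z) hX hX1 hX2 (w - r)
    le_rfl
  obtain ⟨S, h4, -, -⟩ := h3
  rw [show r + (w - r) = w by omega] at h4
  exact ⟨n, S, h4⟩

end Pool.Agent.W6h19.KS
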