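import Mathlib
import Pool.Agent.TH447.KS.Upper
import Pool.Agent.W6h19.KS.Rep
import Pool.Agent.W6h19.KS.Lower
import Pool.Agent.H581.KS.Conv

set_option autoImplicit false

/-!
# The posets of `Pool.Agent.H293R3.BC` as interval orders with two lengths
-/

open Finset

namespace Pool.Agent.W6h19.KS

open Pool.Agent.H293R3.BC Pool.Agent.TH447.KS

/-- representation of a (reflexive) order on `Fin n` by unit intervals and half-lines -/
def Rep2 {n : ℕ} (r : Fin n → Fin n → Prop) : Prop :=
  ∃ (l : Fin n → ℝ) (T : Fin n → Prop), ∀ a b, (r a b ∧ a ≠ b) ↔ (¬ T a ∧ l a + 1 < l b)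

lemma rep2_true {n : ℕ} {r : Fin n → Fin n → Prop} (h : Rep2 r) : Rep2 (ext True r) := by
  obtain ⟨l, T, h2⟩ := h
  obtain ⟨B, -, hB, -⟩ := bounds l
  refine ⟨Fin.cases (B - 2) l, Fin.cases False T, ?_⟩
  intro a b
  rcases Fin.eq_zero_or_eq_succ a with rfl | ⟨i, rfl⟩ <;>
    rcases Fin.eq_zero_or_eq_succ b with rfl | ⟨j, rfl⟩
  · simp only [Fin.cases_zero, ne_eq, not_true_eq_false, and_false, false_iff, not_and, not_lt]
    intro _
    linarith
  · simp only [Fin.cases_zero, Fin.cases_succ, ext_zs, ne_eq, true_and, not_false_eq_true]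
    have : B - 2 + 1 < l j := by linarith [hB j]
    simp only [this, iff_true]
    exact (Fin.succ_ne_zero j).symm
  · simp only [Fin.cases_zero, Fin.cases_succ, ext_sz, false_and, false_iff, not_and, not_lt]
    intro _
    linarith [hB i]
  · simp only [Fin.cases_succ, ext_ss, ne_eq, Fin.succ_inj]
    exact h2 i j

lemma rep2_false {n : ℕ} {r : Fin n → Fin n → Prop} (h : Rep2 r) : Rep2 (ext False r) := by
  obtain ⟨l, T, h2⟩ := h
  obtain ⟨B, -, hB, -⟩ := bounds l
  refine ⟨Fin.cases B l, Fin.cases True T, ?_⟩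
  intro a b
  rcases Fin.eq_zero_or_eq_succ a with rfl | ⟨i, rfl⟩ <;>
    rcases Fin.eq_zero_or_eq_succ b with rfl | ⟨j, rfl⟩
  · simp
  · simp [ext_zs]
  · simp only [Fin.cases_zero, Fin.cases_succ, ext_sz, false_and, false_iff, not_and, not_lt]
    intro _
    linarith [hB i]
  · simp only [Fin.cases_succ, ext_ss, ne_eq, Fin.succ_inj]
    exact h2 i j

variable {w n : ℕ} {r : Fin n → Fin n → Prop} {c b : ℝ}

/-- one step of the construction of `Pool.Agent.H293R3.BC.step`, with interval representations -/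
theorem step2 (hw : 1 ≤ w) (hn1 : 1 ≤ n) (hn : n + 1 ≤ 3 * w - 1)
    (h : G w n r (((n : ℝ) + 1) / 2) b) (hb : b ≤ 1 / 2 - 1 / (12 * ((w : ℝ) + 1) - 8))
    (hrep : Rep2 r) :
    ∃ (m : ℕ) (q : Fin m → Fin m → Prop), 1 ≤ m ∧ m + 1 ≤ 3 * (w + 1) - 1 ∧
      G (w + 1) m q (((m : ℝ) + 1) / 2) (1 / 2 - 1 / (12 * ((w : ℝ) + 1) - 8)) ∧ Rep2 q := by
  have hnR : ((n : ℝ) + 1) ≤ 3 * w - 1 := by
    have h1 : n + 1 + 1 ≤ 3 * w := by omega
    have h2 : ((n + 1 + 1 : ℕ) : ℝ) ≤ ((3 * w : ℕ) : ℝ) := by exact_mod_cast h1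
    push_cast at h2
    linarith
  have hn1R : (1 : ℝ) ≤ n := by exact_mod_cast hn1
  have hs : ∀ (n : ℕ) (r : Fin n → Fin n → Prop), 0 < E r → ∀ y,
      ht (ext True r) y.succ = ht r y + 1 := by
    intro n r hE y
    unfold ht
    rw [S_true_succ, E_true]
    field_simp
  have hz : ∀ (n : ℕ) (r : Fin n → Fin n → Prop), 0 < E r → ht (ext True r) 0 = 1 := by
    intro n r hE
    unfold ht
    rw [S_true_zero, E_true, div_self hE.ne']
  by_cases hk : ∀ y, 1 / 4 ≤ |ht r y - (n : ℝ) / 2|
  · -- one new least element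
    have h1 := h.bot hw
    have h2 : G w (n + 1) (ext True r) ((((n + 1 : ℕ) : ℝ) + 1) / 2) b :=
      h1.mono (by push_cast; linarith)
    have h3 := h2.par (b' := 1 / 2 - 1 / (12 * ((w : ℝ) + 1) - 8)) le_rfl hb (by
      push_cast
      have : 1 / (12 * ((w : ℝ) + 1) - 8) ≤ 1 / (4 * ((n : ℝ) + 1 + 1)) := by
        apply one_div_le_one_div_of_le (by positivity)
        linarith
      linarith) (by
      intro y
      push_cast
      rcases Fin.eq_zero_or_eq_succ y with rfl | ⟨i, rfl⟩
      · rw [hz n r h.pos, abs_sub_comm]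
        refine le_trans ?_ (le_abs_self _)
        linarith
      · rw [hs n r h.pos]
        have := hk i
        have e : ht r i + 1 - ((n : ℝ) + 1 + 1) / 2 = ht r i - (n : ℝ) / 2 := by ring
        rw [e]
        exact this)
    refine ⟨n + 1 + 1, ext False (ext True r), by omega, by omega, ?_, rep2_false (rep2_true hrep)⟩
    have e : (((n + 1 : ℕ) : ℝ) + 1) / 2 * (((n + 1 : ℕ) : ℝ) + 2) / (((n + 1 : ℕ) : ℝ) + 1) =
        (((n + 1 + 1 : ℕ) : ℝ) + 1) / 2 := by
      push_cast
      field_simp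
      ring
    rw [e] at h3
    exact h3
  · -- two new elements
    push Not at hk
    obtain ⟨y0, hy0⟩ := hk
    have hy0' := abs_lt.1 hy0
    have hn2 : (2 : ℝ) ≤ n := by
      have h1 := h.one_le y0
      have h2 : (3 / 2 : ℝ) < n := by linarith [hy0'.2]
      have h3 : 1 < n := by
        by_contra h4
        have h5 : (n : ℝ) ≤ 1 := by exact_mod_cast not_lt.1 h4
        linarith
      exact_mod_cast h3
    have hk2 : ∀ y, 1 / 4 ≤ |ht r y - ((n : ℝ) - 1) / 2| := by
      intro y
      by_contra hy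
      rw [not_le] at hy
      have hy' := abs_lt.1 hy
      by_cases hyy : y = y0
      · subst hyy
        linarith [hy'.2, hy0'.1, hy'.1, hy0'.2]
      · have h1 := h.sep y y0 hyy (by linarith [hy'.2]) (by linarith [hy0'.2])
        rcases le_abs.1 h1 with h2 | h2
        · linarith [hy'.2, hy0'.1]
        · linarith [hy'.1, hy0'.2]
    have h1 := (h.bot hw).bot hw
    have h2 : G w (n + 1 + 1) (ext True (ext True r)) ((((n + 1 + 1 : ℕ) : ℝ) + 1) / 2) b :=
      h1.mono (by push_cast; linarith)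
    have hE1 : 0 < E (ext True r) := by rw [E_true]; exact h.pos
    have h3 := h2.par (b' := 1 / 2 - 1 / (12 * ((w : ℝ) + 1) - 8)) le_rfl hb (by
      push_cast
      have : 1 / (12 * ((w : ℝ) + 1) - 8) ≤ 1 / (4 * ((n : ℝ) + 1 + 1 + 1)) := by
        apply one_div_le_one_div_of_le (by positivity)
        linarith
      linarith) (by
      intro y
      push_cast
      rcases Fin.eq_zero_or_eq_succ y with rfl | ⟨i, rfl⟩
      · rw [hz _ _ hE1, abs_sub_comm]
        refine le_trans ?_ (le_abs_self _)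
        linarith
      · rw [hs _ _ hE1]
        rcases Fin.eq_zero_or_eq_succ i with rfl | ⟨j, rfl⟩
        · rw [hz _ _ h.pos, abs_sub_comm]
          refine le_trans ?_ (le_abs_self _)
          linarith
        · rw [hs _ _ h.pos]
          have := hk2 j
          have e : ht r j + 1 + 1 - ((n : ℝ) + 1 + 1 + 1) / 2 = ht r j - ((n : ℝ) - 1) / 2 := by
            ring
          rw [e]
          exact this)
    refine ⟨n + 1 + 1 + 1, ext False (ext True (ext True r)), by omega, by omega, ?_,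
      rep2_false (rep2_true (rep2_true hrep))⟩
    have e : (((n + 1 + 1 : ℕ) : ℝ) + 1) / 2 * (((n + 1 + 1 : ℕ) : ℝ) + 2) /
        (((n + 1 + 1 : ℕ) : ℝ) + 1) = (((n + 1 + 1 + 1 : ℕ) : ℝ) + 1) / 2 := by
      push_cast
      field_simp
      ring
    rw [e] at h3
    exact h3

theorem exists_poset2 (w : ℕ) (hw : 1 ≤ w) : ∃ (n : ℕ) (r : Fin n → Fin n → Prop), 1 ≤ n ∧
    n + 1 ≤ 3 * w - 1 ∧ G w n r (((n : ℝ) + 1) / 2) (1 / 2 - 1 / (12 * (w : ℝ) - 8)) ∧ Rep2 r := by
  induction w, hw using Nat.le_induction with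
  | base =>
    refine ⟨1, _, le_rfl, by omega, base _, fun _ => 0, fun _ => False, ?_⟩
    intro a b
    constructor
    · rintro ⟨-, h⟩
      exact absurd (Subsingleton.elim a b) h
    · rintro ⟨-, h⟩
      norm_num at h
  | succ w hw ih =>
    obtain ⟨n, r, hn1, hn, h, hrep⟩ := ih
    have hw1 : (1 : ℝ) ≤ w := by exact_mod_cast hw
    obtain ⟨m, q, hm1, hm, hq, hqr⟩ := step2 hw hn1 hn h (by
      have : 1 / (12 * ((w : ℝ) + 1) - 8) ≤ 1 / (12 * (w : ℝ) - 8) := by
        apply one_div_le_one_div_of_le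
        · linarith
        · linarith
      linarith) hrep
    refine ⟨m, q, hm1, hm, ?_, hqr⟩
    push_cast
    exact hq

open Pool.Agent.H13R3.WB Pool.Agent.H931R3.Bal

/-- half-lines can be replaced by long intervals -/
theorem R2.lengths {P : Type} [Fintype P] [PartialOrder P] (h : R2 P) : Lengths P 2 := by
  classical
  obtain ⟨l, T, hl⟩ := h
  obtain ⟨B, C, hB, hC⟩ := bounds l
  obtain ⟨L, hL⟩ : ∃ L : ℝ, L = max 1 (C - B) := ⟨_, rfl⟩
  have hL1 : 1 ≤ L := hL ▸ le_max_left _ _
  have hL2 : C - B ≤ L := hL ▸ le_max_right _ _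
  refine ⟨l, fun x => l x + (if T x then L else 1), ?_, ?_, {L, 1}, Finset.card_le_two, ?_⟩
  · intro x
    show l x ≤ l x + (if T x then L else 1)
    split_ifs <;> linarith
  · intro x y
    show x < y ↔ l x + (if T x then L else 1) < l y
    rw [hl]
    by_cases hx : T x
    · rw [if_pos hx]
      constructor
      · exact fun h => absurd hx h.1
      · intro h
        linarith [hB x, hC y]
    · rw [if_neg hx]
      exact ⟨fun h => h.2, fun h => ⟨hx, h⟩⟩
  · intro x
    show l x + (if T x then L else 1) - l x ∈ _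
    split_ifs <;> simp

theorem R1.lengths {P : Type} [PartialOrder P] (h : R1 P) : Lengths P 1 := by
  obtain ⟨l, hl⟩ := h
  refine ⟨l, fun x => l x + 1, fun x => by linarith, fun x y => hl x y, {1}, by simp, ?_⟩
  intro x
  simp

theorem exists_two (w : ℕ) (hw : 1 ≤ w) : ∃ (P : Type) (_ : Fintype P) (_ : PartialOrder P),
    Lengths P 2 ∧ HasWidth P w ∧ balance P ≤ 1 / 2 - 1 / (12 * (w : ℝ) - 8) := by
  obtain ⟨n, r, hn1, -, h, hrep⟩ := exists_poset2 w hw
  letI : PartialOrder (CT n) := poOf r h.po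
  have hR : R2 (CT n) := by
    obtain ⟨l, T, h2⟩ := hrep
    refine ⟨l, T, ?_⟩
    intro x y
    rw [← h2 x y, lt_iff_le_and_ne]
    exact Iff.rfl
  refine ⟨CT n, inferInstance, inferInstance, hR.lengths, ?_, ?_⟩
  · refine ⟨?_, ?_⟩
    · obtain ⟨s, hs1, hs2⟩ := h.wid
      exact ⟨s, fun a ha b hb hab => hs2 a ha b hb hab, hs1⟩
    · intro s hs
      exact h.wid_le s (fun a ha b hb hab => hs ha hb hab)
  · have hcard : Fintype.card (CT n) = n := Fintype.card_fin n
    have hne : Nonempty (CT n) := ⟨(⟨0, hn1⟩ : Fin n)⟩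
    have hb0 : (0 : ℝ) ≤ 1 / 2 - 1 / (12 * (w : ℝ) - 8) := by
      have hw1 : (1 : ℝ) ≤ w := by exact_mod_cast hw
      have : 1 / (12 * (w : ℝ) - 8) ≤ 1 / 4 := by
        apply one_div_le_one_div_of_le (by norm_num)
        linarith
      linarith
    have hprob : ∀ x y : CT n, prob (CT n) x y = A r x y / E r := by
      intro x y
      have e1 := card_A (r := r) (x := x) (y := y)
      have e2 := card_E (r := r)
      rw [prob_card hcard]
      exact congrArg₂ (fun a b : ℝ => a / b) e1 e2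
    have : Nonempty (CT n × CT n) := inferInstance
    unfold balance
    apply ciSup_le
    rintro ⟨x, y⟩
    simp only
    by_cases hxy : x ≤ y
    · rw [prob_eq_zero_of_le hxy]
      exact (min_le_right _ _).trans hb0
    · by_cases hyx : y ≤ x
      · rw [prob_eq_zero_of_le hyx]
        exact (min_le_left _ _).trans hb0
      · rw [hprob, hprob]
        exact h.bal x y hxy hyx

/-- from `Good` to the balance constant -/
theorem good_balance {P : Type} [Fintype P] [PartialOrder P] [Nonempty P] {ε : ℝ} (hε : ε ≤ 1 / 2)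
    (h : Pool.Agent.H581.KS.Good P ε) : balance P ≤ 1 / 2 - ε := by
  have : Nonempty (P × P) := inferInstance
  unfold balance
  apply ciSup_le
  rintro ⟨x, y⟩
  simp only
  by_cases hxy : x ≤ y
  · rw [prob_eq_zero_of_le hxy]
    exact (min_le_right _ _).trans (by linarith)
  · by_cases hyx : y ≤ x
    · rw [prob_eq_zero_of_le hyx]
      exact (min_le_left _ _).trans (by linarith)
    · have h1 := h x y hxy hyx
      have hne : x ≠ y := fun e => hxy (e ▸ le_rfl)
      have h2 := Pool.Agent.H581.KS.HALF.pr_symm (rfl : Fintype.card P = Fintype.card P) x y hne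
      rw [prob_eq rfl, prob_eq rfl]
      rcases le_abs.1 h1 with h3 | h3
      · exact (min_le_right _ _).trans (by linarith)
      · exact (min_le_left _ _).trans (by linarith)

end Pool.Agent.W6h19.KS
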