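import Mathlib
import Pool.Agent.W6h19.KS.Lower
import Pool.Agent.W6h19.KS.Rec2
import Pool.Agent.W6h19.KS.Up2

set_option autoImplicit false

/-!
# Minimal balance constants of interval orders of bounded nesting depth
-/

open Finset

namespace Pool.Agent.W6h19.KS

open Pool.Agent.H13R3.WB Pool.Agent.H931R3.Bal

/-- infimum of the balance constants of the posets of width `w` in the class `K` -/
noncomputable def dK (K : ∀ (P : Type) [PartialOrder P], Prop) (w : ℕ) : ℝ :=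
  sInf {d : ℝ | ∃ (P : Type) (_ : Fintype P) (_ : PartialOrder P), K P ∧
    HasWidth P w ∧ balance P = d}

lemma nonempty_of {P : Type} [PartialOrder P] {w : ℕ} (hw : 1 ≤ w) (h : HasWidth P w) :
    Nonempty P := by
  obtain ⟨⟨A, _, hA⟩, _⟩ := h
  obtain ⟨x, _⟩ := Finset.card_pos.1 (show 0 < A.card by omega)
  exact ⟨x⟩

theorem dK_le {K : ∀ (P : Type) [PartialOrder P], Prop} {w : ℕ} (hw : 1 ≤ w) {c : ℝ}
    (h : ∃ (P : Type) (_ : Fintype P) (_ : PartialOrder P), K P ∧ HasWidth P w ∧ balance P ≤ c) :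
    dK K w ≤ c := by
  obtain ⟨P, i1, i2, h1, h2, h3⟩ := h
  refine le_trans ?_ h3
  unfold dK
  apply csInf_le
  · refine ⟨0, ?_⟩
    rintro d ⟨Q, _, _, _, h4, rfl⟩
    have := nonempty_of hw h4
    exact balance_nonneg
  · exact ⟨P, i1, i2, h1, h2, rfl⟩

theorem dK_ge {K : ∀ (P : Type) [PartialOrder P], Prop} {w k : ℕ} (hw : 1 ≤ w)
    (hK : ∀ (P : Type) [Fintype P] [PartialOrder P], K P → Nested P k)
    (h : ∃ (P : Type) (_ : Fintype P) (_ : PartialOrder P), K P ∧ HasWidth P w) :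
    1 / 2 - 3 * k * (1 + Real.log w) / w ≤ dK K w := by
  unfold dK
  apply le_csInf
  · obtain ⟨P, i1, i2, h1, h2⟩ := h
    exact ⟨_, P, i1, i2, h1, h2, rfl⟩
  · rintro d ⟨P, _, _, h1, h2, rfl⟩
    exact nested_balance P k (hK P h1) w hw h2

theorem exists_log (w : ℕ) (hw : 1 ≤ w) : ∃ (P : Type) (_ : Fintype P) (_ : PartialOrder P),
    Lengths P 2 ∧ HasWidth P w ∧ balance P ≤ 1 / 2 - Real.log w / (20000 * (w : ℝ)) := by
  have hw1 : (1 : ℝ) ≤ w := by exact_mod_cast hw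
  have hw0 : (0 : ℝ) < w := by linarith
  rcases le_or_gt 14641 w with hbig | hsmall
  · obtain ⟨n, S, P, i1, i2, ⟨h1, h2, h3, -⟩, h4⟩ := exists_ex2 w hbig
    have h2' : HasWidth P w := ⟨h2.1, h2.2⟩
    have := nonempty_of hw h2'
    refine ⟨P, i1, i2, h4.lengths, h2', good_balance ?_ h3⟩
    rw [div_le_iff₀ (by positivity)]
    have : Real.log w ≤ w := (Real.log_le_sub_one_of_pos hw0).trans (by linarith)
    linarith
  · obtain ⟨P, i1, i2, h1, h2, h3⟩ := exists_two w hw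
    refine ⟨P, i1, i2, h1, h2, h3.trans ?_⟩
    have h11 : Real.log w ≤ 40 := by
      have h1 : Real.log w ≤ Real.log ((11 : ℝ) ^ 4) := by
        apply Real.log_le_log hw0
        have : (w : ℝ) ≤ 14641 := by exact_mod_cast hsmall.le
        linarith
      rw [Real.log_pow] at h1
      have h2 : Real.log (11 : ℝ) ≤ 10 := by
        have := Real.log_le_sub_one_of_pos (show (0 : ℝ) < 11 by norm_num)
        linarith
      push_cast at h1
      linarith
    have : Real.log w / (20000 * (w : ℝ)) ≤ 1 / (12 * (w : ℝ) - 8) := by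
      rw [div_le_div_iff₀ (by positivity) (by linarith)]
      have h3 : Real.log w * (12 * (w : ℝ) - 8) ≤ 40 * (12 * (w : ℝ) - 8) :=
        mul_le_mul_of_nonneg_right h11 (by linarith)
      linarith
    linarith

theorem exists_semi (w : ℕ) (hw : 1 ≤ w) : ∃ (P : Type) (_ : Fintype P) (_ : PartialOrder P),
    Lengths P 1 ∧ HasWidth P w ∧ balance P ≤ 1 / 2 - 1 / (8 * (w : ℝ) ^ 2) := by
  have hw1 : (1 : ℝ) ≤ w := by exact_mod_cast hw
  obtain ⟨P, i1, i2, ⟨h1, h2, h3, -⟩, h4⟩ := ex_half1 (ε := 1 / (8 * (w : ℝ) ^ 2)) hw (by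
    rw [mul_one_div_cancel (by positivity)])
  have h2' : HasWidth P w := ⟨h2.1, h2.2⟩
  have := nonempty_of hw h2'
  refine ⟨P, i1, i2, h4.lengths, h2', good_balance ?_ h3⟩
  rw [div_le_iff₀ (by positivity)]
  nlinarith

/-- `(1 + log v) / v` is decreasing -/
lemma log_div_anti {X v : ℝ} (hX : 1 ≤ X) (hv : X ≤ v) :
    (1 + Real.log v) / v ≤ (1 + Real.log X) / X := by
  have hX0 : 0 < X := by linarith
  have hv0 : 0 < v := by linarith
  have h1 : Real.log v ≤ Real.log X + (v / X - 1) := by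
    have h2 : Real.log (v / X) = Real.log v - Real.log X := Real.log_div hv0.ne' hX0.ne'
    have h3 := Real.log_le_sub_one_of_pos (show 0 < v / X by positivity)
    linarith
  have h4 : 1 ≤ v / X := by rwa [one_le_div hX0]
  have h5 : 0 ≤ Real.log X := Real.log_nonneg hX
  have h6 : 1 + Real.log v ≤ (1 + Real.log X) * (v / X) := by nlinarith
  rw [div_le_iff₀ hv0]
  calc 1 + Real.log v ≤ (1 + Real.log X) * (v / X) := h6
    _ = (1 + Real.log X) / X * v := by ring

lemma log_one_add_log {x : ℝ} (hx : 1 ≤ x) : Real.log (1 + Real.log x) ≤ Real.log x := by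
  have h0 : 0 ≤ Real.log x := Real.log_nonneg hx
  have := Real.log_le_sub_one_of_pos (show 0 < 1 + Real.log x by linarith)
  linarith

theorem num_two {k w v : ℕ} (hk : 1 ≤ k) (hw : 1 ≤ w)
    (hv : 10 ^ 6 * (k * (1 + Real.log k) * w) ≤ (v : ℝ)) :
    3 * k * (1 + Real.log v) / v < Real.log w / (20000 * (w : ℝ)) ∨
      3 * k * (1 + Real.log v) / v < 1 / (12 * (w : ℝ) - 8) := by
  have hk1 : (1 : ℝ) ≤ k := by exact_mod_cast hk
  have hw1 : (1 : ℝ) ≤ w := by exact_mod_cast hw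
  have hw0 : (0 : ℝ) < w := by linarith
  have hk0 : (0 : ℝ) < k := by linarith
  have hlk : 0 ≤ Real.log k := Real.log_nonneg hk1
  have hlw : 0 ≤ Real.log w := Real.log_nonneg hw1
  obtain ⟨X, hX⟩ : ∃ X : ℝ, X = 10 ^ 6 * (k * (1 + Real.log k) * w) := ⟨_, rfl⟩
  rw [← hX] at hv
  have h1 : (1 : ℝ) ≤ k * (1 + Real.log k) * w := by
    have : (1 : ℝ) ≤ k * (1 + Real.log k) := by nlinarith
    nlinarith
  have hX1 : 1 ≤ X := by rw [hX]; linarith
  have hX0 : 0 < X := by linarith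
  have h2 := log_div_anti hX1 hv
  have hlX : 1 + Real.log X ≤ (14.87 + Real.log w) * (1 + Real.log k) := by
    have e : Real.log X = Real.log (10 ^ 6) + (Real.log k + Real.log (1 + Real.log k) +
        Real.log w) := by
      rw [hX, Real.log_mul (by norm_num) (by positivity), Real.log_mul (by positivity) hw0.ne',
        Real.log_mul hk0.ne' (by positivity)]
    have e2 : Real.log ((10 : ℝ) ^ 6) ≤ 13.87 := by
      have : Real.log ((10 : ℝ) ^ 6) ≤ Real.log ((2 : ℝ) ^ 20) :=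
        Real.log_le_log (by norm_num) (by norm_num)
      refine this.trans ?_
      rw [Real.log_pow (2 : ℝ) 20]
      have h3 := Real.log_two_lt_d9
      push_cast
      linarith
    have e3 := log_one_add_log hk1
    rw [e]
    nlinarith [mul_nonneg hlk hlw]
  have h3 : 3 * k * (1 + Real.log v) / v ≤ 3 * (14.87 + Real.log w) / (10 ^ 6 * w) := by
    calc 3 * k * (1 + Real.log v) / v = 3 * k * ((1 + Real.log v) / v) := by ring
      _ ≤ 3 * k * ((1 + Real.log X) / X) := mul_le_mul_of_nonneg_left h2 (by positivity)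
      _ ≤ 3 * k * ((14.87 + Real.log w) * (1 + Real.log k) / X) := by
          apply mul_le_mul_of_nonneg_left _ (by positivity)
          exact div_le_div_of_nonneg_right hlX hX0.le
      _ = 3 * (14.87 + Real.log w) / (10 ^ 6 * w) := by
          rw [hX]
          field_simp
  rcases le_or_gt 1 (Real.log w) with hlw1 | hlw1
  · left
    refine h3.trans_lt ?_
    rw [div_lt_div_iff₀ (by positivity) (by positivity)]
    nlinarith
  · right
    refine h3.trans_lt ?_
    rw [div_lt_div_iff₀ (by positivity) (by linarith)]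
    nlinarith

theorem num_one {w v : ℕ} (hw : 1 ≤ w) (hv : 200 * ((w : ℝ) ^ 2 * (1 + Real.log w)) ≤ (v : ℝ)) :
    3 * (1 + Real.log v) / v < 1 / (8 * (w : ℝ) ^ 2) := by
  have hw1 : (1 : ℝ) ≤ w := by exact_mod_cast hw
  have hw0 : (0 : ℝ) < w := by linarith
  have hlw : 0 ≤ Real.log w := Real.log_nonneg hw1
  obtain ⟨X, hX⟩ : ∃ X : ℝ, X = 200 * ((w : ℝ) ^ 2 * (1 + Real.log w)) := ⟨_, rfl⟩
  rw [← hX] at hv
  have h1 : (1 : ℝ) ≤ (w : ℝ) ^ 2 * (1 + Real.log w) := by
    have : (1 : ℝ) ≤ (w : ℝ) ^ 2 := by nlinarith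
    nlinarith
  have hX1 : 1 ≤ X := by rw [hX]; linarith
  have hX0 : 0 < X := by linarith
  have h2 := log_div_anti hX1 hv
  have hlX : 1 + Real.log X ≤ 7 * (1 + Real.log w) := by
    have e : Real.log X = Real.log 200 + (2 * Real.log w + Real.log (1 + Real.log w)) := by
      rw [hX, Real.log_mul (by norm_num) (by positivity), Real.log_mul (by positivity)
        (by positivity), Real.log_pow]
      norm_num
    have e2 : Real.log (200 : ℝ) ≤ 6 := by
      have : Real.log (200 : ℝ) ≤ Real.log ((2 : ℝ) ^ 8) :=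
        Real.log_le_log (by norm_num) (by norm_num)
      rw [Real.log_pow (2 : ℝ) 8] at this
      have h3 := Real.log_two_lt_d9
      push_cast at this
      linarith
    have e3 := log_one_add_log hw1
    rw [e]
    linarith
  have h3 : 3 * (1 + Real.log v) / v ≤ 3 * 7 / (200 * (w : ℝ) ^ 2) := by
    calc 3 * (1 + Real.log v) / v = 3 * ((1 + Real.log v) / v) := by ring
      _ ≤ 3 * ((1 + Real.log X) / X) := mul_le_mul_of_nonneg_left h2 (by positivity)
      _ ≤ 3 * (7 * (1 + Real.log w) / X) := by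
          apply mul_le_mul_of_nonneg_left _ (by positivity)
          exact div_le_div_of_nonneg_right hlX hX0.le
      _ = 3 * 7 / (200 * (w : ℝ) ^ 2) := by
          rw [hX]
          field_simp
  refine h3.trans_lt ?_
  rw [div_lt_div_iff₀ (by positivity) (by positivity)]
  nlinarith

/-- from an increase to an increase by one step -/
lemma exists_step (d : ℕ → ℝ) {a b : ℕ} (h : d a < d b) (hab : a ≤ b) :
    ∃ u, a ≤ u ∧ u < b ∧ d u < d (u + 1) := by
  by_contra hc
  push Not at hc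
  have : ∀ j, a ≤ j → j ≤ b → d j ≤ d a := by
    intro j hj
    induction j, hj using Nat.le_induction with
    | base => intro _; exact le_rfl
    | succ j hj ih =>
      intro hjb
      exact (hc j hj (by omega)).trans (ih (by omega))
  exact absurd (this b hab le_rfl) (not_le.2 h)

variable {K : ∀ (P : Type) [PartialOrder P], Prop} {k : ℕ}

theorem two_bounds (hL : ∀ (P : Type) [Fintype P] [PartialOrder P], Lengths P 2 → K P)
    (hN : ∀ (P : Type) [Fintype P] [PartialOrder P], K P → Nested P k) (w : ℕ) (hw : 1 ≤ w) :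
    1 / 2 - 3 * k * (1 + Real.log w) / w ≤ dK K w ∧
      dK K w ≤ 1 / 2 - Real.log w / (20000 * (w : ℝ)) ∧
      dK K w ≤ 1 / 2 - 1 / (12 * (w : ℝ) - 8) := by
  refine ⟨dK_ge hw hN ?_, dK_le hw ?_, dK_le hw ?_⟩
  · obtain ⟨P, i1, i2, h1, h2, -⟩ := exists_two w hw
    exact ⟨P, i1, i2, hL P h1, h2⟩
  · obtain ⟨P, i1, i2, h1, h2, h3⟩ := exists_log w hw
    exact ⟨P, i1, i2, hL P h1, h2, h3⟩
  · obtain ⟨P, i1, i2, h1, h2, h3⟩ := exists_two w hw
    exact ⟨P, i1, i2, hL P h1, h2, h3⟩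

theorem two_growth (hk : 1 ≤ k)
    (hL : ∀ (P : Type) [Fintype P] [PartialOrder P], Lengths P 2 → K P)
    (hN : ∀ (P : Type) [Fintype P] [PartialOrder P], K P → Nested P k) (w v : ℕ) (hw : 1 ≤ w)
    (hv : 10 ^ 6 * (k * (1 + Real.log k) * w) ≤ (v : ℝ)) : dK K w < dK K v := by
  have hk1 : (1 : ℝ) ≤ k := by exact_mod_cast hk
  have hw1 : (1 : ℝ) ≤ w := by exact_mod_cast hw
  have hlk : 0 ≤ Real.log k := Real.log_nonneg hk1
  have hv1 : 1 ≤ v := by
    have h1 : (1 : ℝ) ≤ k * (1 + Real.log k) * w := by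
      have : (1 : ℝ) ≤ k * (1 + Real.log k) := by nlinarith
      nlinarith
    have : (1 : ℝ) ≤ v := by linarith
    exact_mod_cast this
  obtain ⟨-, h1, h2⟩ := two_bounds hL hN w hw
  obtain ⟨h3, -, -⟩ := two_bounds hL hN v hv1
  rcases num_two hk hw hv with h | h <;> linarith

theorem two_step (hk : 1 ≤ k)
    (hL : ∀ (P : Type) [Fintype P] [PartialOrder P], Lengths P 2 → K P)
    (hN : ∀ (P : Type) [Fintype P] [PartialOrder P], K P → Nested P k) (w : ℕ) (hw : 1 ≤ w) :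
    ∃ u : ℕ, w ≤ u ∧ (u : ℝ) ≤ 10 ^ 6 * (k * (1 + Real.log k) * w) ∧ dK K u < dK K (u + 1) := by
  have hk1 : (1 : ℝ) ≤ k := by exact_mod_cast hk
  have hw1 : (1 : ℝ) ≤ w := by exact_mod_cast hw
  have hlk : 0 ≤ Real.log k := Real.log_nonneg hk1
  obtain ⟨X, hX⟩ : ∃ X : ℝ, X = 10 ^ 6 * (k * (1 + Real.log k) * w) := ⟨_, rfl⟩
  have hwX : (w : ℝ) ≤ X := by
    have : (1 : ℝ) ≤ k * (1 + Real.log k) := by nlinarith
    have h2 : (w : ℝ) ≤ k * (1 + Real.log k) * w := by nlinarith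
    rw [hX]
    linarith
  have h1 := two_growth hk hL hN w ⌈X⌉₊ hw (by rw [← hX]; exact Nat.le_ceil X)
  have h2 : w ≤ ⌈X⌉₊ := by
    have : (w : ℝ) ≤ (⌈X⌉₊ : ℝ) := hwX.trans (Nat.le_ceil X)
    exact_mod_cast this
  obtain ⟨u, h3, h4, h5⟩ := exists_step (dK K) h1 h2
  refine ⟨u, h3, ?_, h5⟩
  rw [← hX]
  exact (Nat.lt_ceil.1 h4).le

theorem one_bounds (hL : ∀ (P : Type) [Fintype P] [PartialOrder P], Lengths P 1 → K P)
    (hN : ∀ (P : Type) [Fintype P] [PartialOrder P], K P → Nested P 1) (w : ℕ) (hw : 1 ≤ w) :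
    1 / 2 - 3 * (1 + Real.log w) / w ≤ dK K w ∧ dK K w ≤ 1 / 2 - 1 / (8 * (w : ℝ) ^ 2) := by
  refine ⟨?_, dK_le hw ?_⟩
  · have := dK_ge hw hN (by
      obtain ⟨P, i1, i2, h1, h2, -⟩ := exists_semi w hw
      exact ⟨P, i1, i2, hL P h1, h2⟩)
    simpa using this
  · obtain ⟨P, i1, i2, h1, h2, h3⟩ := exists_semi w hw
    exact ⟨P, i1, i2, hL P h1, h2, h3⟩

theorem one_growth (hL : ∀ (P : Type) [Fintype P] [PartialOrder P], Lengths P 1 → K P)
    (hN : ∀ (P : Type) [Fintype P] [PartialOrder P], K P → Nested P 1) (w v : ℕ) (hw : 1 ≤ w)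
    (hv : 200 * ((w : ℝ) ^ 2 * (1 + Real.log w)) ≤ (v : ℝ)) : dK K w < dK K v := by
  have hw1 : (1 : ℝ) ≤ w := by exact_mod_cast hw
  have hlw : 0 ≤ Real.log w := Real.log_nonneg hw1
  have hv1 : 1 ≤ v := by
    have h1 : (1 : ℝ) ≤ (w : ℝ) ^ 2 * (1 + Real.log w) := by
      have : (1 : ℝ) ≤ (w : ℝ) ^ 2 := by nlinarith
      nlinarith
    have : (1 : ℝ) ≤ v := by linarith
    exact_mod_cast this
  obtain ⟨-, h1⟩ := one_bounds hL hN w hw
  obtain ⟨h3, -⟩ := one_bounds hL hN v hv1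
  have h := num_one hw hv
  linarith

end Pool.Agent.W6h19.KS
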